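import Mathlib
import Pool.Agent.N718.LB.Stm

/-!
# Small prime solutions of `a p + b q + c r = d` for almost all `(a, b, c, d)` (project BE, helper8)

`V3`, `cr` (cross product), `dt` (scalar product) are those of `Pool.Agent.N718.LB`.
-/

set_option autoImplicit false
set_option linter.all false

namespace Pool.Agent.L7h8.BE

open Finset
open Pool.Agent.N718.LB (V3 cr dt)

/-- The quadruple `(a, d)` is admissible. -/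
def Adq (a : Fin 3 → ℤ) (d : ℤ) : Prop :=
  (∀ i, a i ≠ 0) ∧ ¬ (∀ i, 0 < a i) ∧ ¬ (∀ i, a i < 0) ∧ Even (a 0 + a 1 + a 2 - d) ∧
  (∀ p : ℕ, p.Prime → ¬ ∀ i, (p : ℤ) ∣ a i) ∧
  ∀ i j, i ≠ j → ∀ p : ℕ, p.Prime → (p : ℤ) ∣ a i → (p : ℤ) ∣ a j → ¬ (p : ℤ) ∣ d

/-- The equation `a₀ p₀ + a₁ p₁ + a₂ p₂ = d` has a solution in primes `p i ≤ X`. -/
def PSd (X : ℝ) (a : Fin 3 → ℤ) (d : ℤ) : Prop :=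
  ∃ P : Fin 3 → ℕ, (∀ i, (P i).Prime ∧ (P i : ℝ) ≤ X) ∧ a 0 * P 0 + a 1 * P 1 + a 2 * P 2 = d

/-- LOCU: there is a point of the lattice whose coordinates are coprime to `M`. -/
def S_LOCU : Prop := ∀ M : ℕ, 1 ≤ M → ∀ u v w : Fin 3 → ℤ, Adq (cr v w) (dt (cr v w) u) →
  ∃ x₀ y₀ : ℤ, ∀ i, IsCoprime (u i + x₀ * v i + y₀ * w i) (M : ℤ)

/-- a basis of size `K H` whose second vector is positive; `H ^ 2` is the size of `a` -/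
def Gd (K H : ℕ) (a : Fin 3 → ℤ) : Prop :=
  (∀ i, (H : ℤ) ^ 2 ≤ K * |a i|) ∧ ∃ v w : Fin 3 → ℤ, cr v w = a ∧ (∀ i, |v i| ≤ K * H) ∧
    (∀ i, |w i| ≤ K * H) ∧ ∀ i, (H : ℤ) ≤ K * w i

open Classical in
/-- GEO: most primitive vectors which are not of one sign have such a basis. -/
def S_GEO : Prop := ∀ η : ℝ, 0 < η → ∃ K : ℕ, 1 ≤ K ∧ ∃ A₀ : ℕ, ∀ A : ℕ, A₀ ≤ A → ∀ H : ℕ,
  A ≤ H ^ 2 → H ^ 2 ≤ 4 * A →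
    (((V3 A).filter (fun a => (∀ i, a i ≠ 0) ∧ ¬ (∀ i, 0 < a i) ∧ ¬ (∀ i, a i < 0) ∧
      (∀ p : ℕ, p.Prime → ¬ ∀ i, (p : ℤ) ∣ a i) ∧ ¬ Gd K H a)).card : ℝ) ≤ η * (A : ℝ) ^ 3

/-- RED: a small solution of the inhomogeneous equation. -/
def S_RED : Prop := ∀ K : ℕ, 1 ≤ K → ∃ K' : ℕ, ∀ H : ℕ, 1 ≤ H → ∀ v w : Fin 3 → ℤ,
  (∀ i, |v i| ≤ K * H) → (∀ i, |w i| ≤ K * H) → (∀ i, (H : ℤ) ^ 2 ≤ K * |cr v w i|) →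
  (∀ p : ℕ, p.Prime → ¬ ∀ i, (p : ℤ) ∣ cr v w i) → ∀ d : ℤ, |d| ≤ (H : ℤ) ^ 3 →
  ∃ u : Fin 3 → ℤ, dt (cr v w) u = d ∧ ∀ i, |u i| ≤ K' * H

open Classical in
/-- EXC: for almost all pairs `(u, w)` in given residue classes with `w` positive the line
`u + y w` contains a vector of primes with a small `y`. -/
def S_EXC : Prop := ∃ C : ℝ, 0 ≤ C ∧ ∃ κ : ℕ, ∀ W M : ℕ, 1 ≤ W → 1 ≤ M → 2 ∣ M →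
  (∀ p : ℕ, p.Prime → p ≤ W → p ∣ M) → ∀ B K : ℕ, 1 ≤ B → 1 ≤ K → ∀ (y₀ : ℤ) (γ δ : Fin 3 → ℤ),
  (∀ i, IsCoprime (γ i + y₀ * δ i) (M : ℤ)) → ∃ H₀ : ℕ, ∀ H : ℕ, H₀ ≤ H →
    (((V3 (B * H) ×ˢ V3 (K * H)).filter (fun t =>
      (∀ i, (M : ℤ) ∣ t.1 i - γ i ∧ (M : ℤ) ∣ t.2 i - δ i) ∧ (∀ i, (H : ℤ) ≤ K * t.2 i) ∧
      ¬ ∃ y : ℤ, |(y : ℝ)| ≤ Real.log H ^ κ ∧
        ∃ P : Fin 3 → ℕ, ∀ i, (P i).Prime ∧ t.1 i + y * t.2 i = P i)).card : ℝ) ≤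
      C / W * ((B : ℝ) * H / M) ^ 3 * ((K : ℝ) * H / M) ^ 3

open Classical in
/-- SLAB: integral points in a slab. -/
def S_SLAB : Prop := ∃ C : ℝ, 0 ≤ C ∧ ∀ K M x K₁ : ℕ, 1 ≤ K → 1 ≤ M → 1 ≤ x → ∃ R H₀ : ℕ,
  ∀ H : ℕ, H₀ ≤ H → ∀ D : ℕ, H ^ 2 ≤ 4 * D → ∀ u w : Fin 3 → ℤ, (∀ i, |u i| ≤ K₁ * H) →
  (∀ i, |w i| ≤ K₁ * H) → (x : ℤ) * H ^ 2 ≤ K * |cr w u 2| → ∀ γ : Fin 3 → ℤ,
  (((V3 (K * H)).filter (fun v => (∀ i, (M : ℤ) ∣ v i - γ i) ∧ (∀ i, |u i - x * v i| ≤ K * H) ∧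
    |dt v (cr w u)| ≤ D)).card : ℝ) ≤ C * (K : ℝ) ^ 3 * D / ((x : ℝ) ^ 3 * (M : ℝ) ^ 3) ∨
  ∃ h : Fin 3 → ℤ, h ≠ 0 ∧ (∀ i, |h i| ≤ R) ∧ |dt w h| ≤ R ∧ |dt u h| ≤ R

open Classical in
/-- BADC: few pairs are almost orthogonal to a small vector. -/
def S_BADC : Prop := ∀ R B : ℕ, ∃ C : ℝ, 0 ≤ C ∧ ∀ H : ℕ, 1 ≤ H →
  (((V3 (B * H) ×ˢ V3 (B * H)).filter (fun t => ∃ h : Fin 3 → ℤ, h ≠ 0 ∧ (∀ i, |h i| ≤ R) ∧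
    |dt t.2 h| ≤ R ∧ |dt t.1 h| ≤ R)).card : ℝ) ≤ C * (H : ℝ) ^ 4

open Classical in
/-- MAIN: almost all quadruples. -/
def S_MAIN : Prop := ∃ κ : ℕ, ∀ η : ℝ, 0 < η → ∃ A₀ : ℕ, ∀ A : ℕ, A₀ ≤ A → ∀ D : ℕ,
  A ≤ D → D ^ 2 ≤ A ^ 3 →
    (((V3 A ×ˢ Icc (-(D : ℤ)) D).filter (fun t => Adq t.1 t.2 ∧
      ¬ PSd ((A : ℝ) ^ (1 / 2 : ℝ) * Real.log A ^ κ) t.1 t.2)).card : ℝ) ≤ η * ((A : ℝ) ^ 3 * D)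

open Classical in
/-- LOW: few equations have small solutions in integers. -/
def S_LOW : Prop := ∃ C : ℝ, 0 ≤ C ∧ ∀ A D X : ℕ, 1 ≤ X → X ≤ A → A ≤ D →
    (((V3 A ×ˢ Icc (-(D : ℤ)) D).filter (fun t => ∃ P : Fin 3 → ℤ, P ≠ 0 ∧ (∀ i, |P i| ≤ X) ∧
      dt t.1 P = t.2)).card : ℝ) ≤ C * (A : ℝ) ^ 2 * D * (X : ℝ) ^ 2

open Classical in
/-- DEN: a positive proportion of the quadruples is admissible. -/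
def S_DEN : Prop := ∃ c₀ : ℝ, 0 < c₀ ∧ ∃ A₀ : ℕ, ∀ A : ℕ, A₀ ≤ A → ∀ D : ℕ,
  c₀ * ((A : ℝ) ^ 3 * D) ≤ (((V3 A ×ˢ Icc (-(D : ℤ)) D).filter (fun t => Adq t.1 t.2)).card : ℝ)

end Pool.Agent.L7h8.BE
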