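import Pool.Agent.L7h8.BE.Stm

/-!
# Project BE: the final statement
-/

set_option autoImplicit false

namespace Pool.Agent.L7h8.BE

open Finset Filter
open Pool.Agent.N718.LB (V3 cr dt)

/-- The quadruple `(a, b, c, d)` is admissible. -/
structure Admissible (a b c d : ℤ) : Prop where
  a_ne : a ≠ 0
  b_ne : b ≠ 0
  c_ne : c ≠ 0
  not_pos : ¬ (0 < a ∧ 0 < b ∧ 0 < c)
  not_neg : ¬ (a < 0 ∧ b < 0 ∧ c < 0)
  even : Even (a + b + c - d)
  gcd_abc : Int.gcd (Int.gcd a b) c = 1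
  gcd_dab : Int.gcd (Int.gcd d a) b = 1
  gcd_dac : Int.gcd (Int.gcd d a) c = 1
  gcd_dbc : Int.gcd (Int.gcd d b) c = 1

/-- `max(p, q, r) ≤ 3 |d| + m ^ μ` -/
def SmallSolution (μ : ℝ) (a b c d : ℤ) : Prop :=
  ∃ p q r : ℕ, p.Prime ∧ q.Prime ∧ r.Prime ∧ a * p + b * q + c * r = d ∧
    ((max p (max q r) : ℕ) : ℝ) ≤ 3 * |(d : ℝ)| + ((max 3 (max |a| (max |b| |c|)) : ℤ) : ℝ) ^ μ

/-- a solution in primes at most `X` -/
def PrimeSolution (X : ℝ) (a b c d : ℤ) : Prop :=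
  ∃ p q r : ℕ, p.Prime ∧ q.Prime ∧ r.Prime ∧ a * p + b * q + c * r = d ∧
    ((max p (max q r) : ℕ) : ℝ) ≤ X

/-- a solution in integers, not all zero, of absolute value at most `X` -/
def IntegerSolution (X : ℝ) (a b c d : ℤ) : Prop :=
  ∃ x y z : ℤ, ¬ (x = 0 ∧ y = 0 ∧ z = 0) ∧ a * x + b * y + c * z = d ∧
    ((max |x| (max |y| |z|) : ℤ) : ℝ) ≤ X

open Classical in
/-- the admissible quadruples -/
noncomputable def quadruples (A D : ℕ) : Finset (ℤ × ℤ × ℤ × ℤ) :=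
  (Icc (-(A : ℤ)) A ×ˢ Icc (-(A : ℤ)) A ×ˢ Icc (-(A : ℤ)) A ×ˢ Icc (-(D : ℤ)) D).filter
    (fun t => Admissible t.1 t.2.1 t.2.2.1 t.2.2.2)

open Classical in
/-- the proportion -/
noncomputable def proportion (A D : ℕ) (Q : ℤ → ℤ → ℤ → ℤ → Prop) : ℝ :=
  (((quadruples A D).filter (fun t => Q t.1 t.2.1 t.2.2.1 t.2.2.2)).card : ℝ) /
    ((quadruples A D).card : ℝ)

/-- the final statement -/
def S_FIN : Prop :=
  (∃ c₀ : ℝ, 0 < c₀ ∧ ∃ A₀ : ℕ, ∀ A : ℕ, A₀ ≤ A → ∀ D : ℕ, A ≤ D →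
    c₀ * ((A : ℝ) ^ 3 * D) ≤ ((quadruples A D).card : ℝ)) ∧
  (∃ κ : ℕ, ∀ ε : ℝ, 0 < ε → ∃ A₀ : ℕ, ∀ A : ℕ, A₀ ≤ A → ∀ D : ℕ, A ≤ D → D ^ 2 ≤ A ^ 3 →
    1 - ε ≤ proportion A D (PrimeSolution ((A : ℝ) ^ (1 / 2 : ℝ) * Real.log A ^ κ))) ∧
  (∀ ε : ℝ, 0 < ε → ∃ δ : ℝ, 0 < δ ∧ ∃ A₀ : ℕ, ∀ A : ℕ, A₀ ≤ A → ∀ D : ℕ, A ≤ D →
    proportion A D (IntegerSolution (δ * (A : ℝ) ^ (1 / 2 : ℝ))) ≤ ε) ∧
  (∀ μ ε : ℝ, 0 < ε → ∃ A₀ : ℕ, ∀ A : ℕ, A₀ ≤ A → ∀ D : ℕ, A ≤ D → D ^ 2 ≤ A ^ 3 →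
    1 - ε ≤ proportion A D (SmallSolution μ))

theorem nat_dvd_gcd {p : ℕ} {x y : ℤ} : p ∣ Int.gcd x y ↔ (p : ℤ) ∣ x ∧ (p : ℤ) ∣ y := by
  rw [Int.gcd, Nat.dvd_gcd_iff, Int.natCast_dvd, Int.natCast_dvd]

theorem gcd3 {x y z : ℤ} : Int.gcd (Int.gcd x y) z = 1 ↔
    ∀ p : ℕ, p.Prime → ¬ ((p : ℤ) ∣ x ∧ (p : ℤ) ∣ y ∧ (p : ℤ) ∣ z) := by
  rw [Nat.eq_one_iff_not_exists_prime_dvd]
  refine forall_congr' fun p => imp_congr_right fun _ => not_congr ?_
  rw [nat_dvd_gcd, Int.natCast_dvd_natCast, nat_dvd_gcd, and_assoc]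

theorem adm_iff (a b c d : ℤ) : Admissible a b c d ↔ Adq ![a, b, c] d := by
  constructor
  · rintro ⟨h1, h2, h3, h4, h5, h6, h7, h8, h9, h10⟩
    rw [gcd3] at h7 h8 h9 h10
    refine ⟨?_, ?_, ?_, h6, ?_, ?_⟩
    · intro i
      fin_cases i
      · exact h1
      · exact h2
      · exact h3
    · intro h
      exact h4 ⟨h 0, h 1, h 2⟩
    · intro h
      exact h5 ⟨h 0, h 1, h 2⟩
    · intro p hp h
      exact h7 p hp ⟨h 0, h 1, h 2⟩
    · intro i j hij p hp hi hj hd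
      fin_cases i <;> fin_cases j
      · exact hij rfl
      · exact h8 p hp ⟨hd, hi, hj⟩
      · exact h9 p hp ⟨hd, hi, hj⟩
      · exact h8 p hp ⟨hd, hj, hi⟩
      · exact hij rfl
      · exact h10 p hp ⟨hd, hi, hj⟩
      · exact h9 p hp ⟨hd, hj, hi⟩
      · exact h10 p hp ⟨hd, hj, hi⟩
      · exact hij rfl
  · rintro ⟨h1, h2, h3, h4, h5, h6⟩
    refine ⟨h1 0, h1 1, h1 2, ?_, ?_, h4, ?_, ?_, ?_, ?_⟩
    · rintro ⟨g0, g1, g2⟩
      refine h2 fun i => ?_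
      fin_cases i
      · exact g0
      · exact g1
      · exact g2
    · rintro ⟨g0, g1, g2⟩
      refine h3 fun i => ?_
      fin_cases i
      · exact g0
      · exact g1
      · exact g2
    · rw [gcd3]
      rintro p hp ⟨g0, g1, g2⟩
      refine h5 p hp fun i => ?_
      fin_cases i
      · exact g0
      · exact g1
      · exact g2
    · rw [gcd3]
      rintro p hp ⟨g0, g1, g2⟩
      exact h6 0 1 (by decide) p hp g1 g2 g0
    · rw [gcd3]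
      rintro p hp ⟨g0, g1, g2⟩
      exact h6 0 2 (by decide) p hp g1 g2 g0
    · rw [gcd3]
      rintro p hp ⟨g0, g1, g2⟩
      exact h6 1 2 (by decide) p hp g1 g2 g0

open Classical in
theorem card_eq (A D : ℕ) (Q : ℤ → ℤ → ℤ → ℤ → Prop) :
    ((quadruples A D).filter (fun t => Q t.1 t.2.1 t.2.2.1 t.2.2.2)).card =
      ((V3 A ×ˢ Icc (-(D : ℤ)) D).filter (fun t => Adq t.1 t.2 ∧
        Q (t.1 0) (t.1 1) (t.1 2) t.2)).card := by
  refine card_nbij' (fun t => (![t.1, t.2.1, t.2.2.1], t.2.2.2))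
    (fun t => (t.1 0, t.1 1, t.1 2, t.2)) ?_ ?_ ?_ ?_
  · rintro ⟨a, b, c, d⟩ ht
    unfold quadruples at ht
    simp only [coe_filter, mem_filter, mem_product, Set.mem_ofPred_eq] at ht
    obtain ⟨⟨⟨ha, hb, hc, hd⟩, had⟩, hQ⟩ := ht
    simp only [coe_filter, mem_product, Set.mem_ofPred_eq]
    refine ⟨⟨?_, hd⟩, (adm_iff a b c d).1 had, hQ⟩
    unfold V3
    rw [Fintype.mem_piFinset]
    intro i
    fin_cases i
    · exact ha
    · exact hb
    · exact hc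
  · rintro ⟨a, d⟩ ht
    simp only [coe_filter, mem_product, Set.mem_ofPred_eq] at ht
    obtain ⟨⟨ha, hd⟩, had, hQ⟩ := ht
    unfold V3 at ha
    rw [Fintype.mem_piFinset] at ha
    unfold quadruples
    simp only [coe_filter, mem_filter, mem_product, Set.mem_ofPred_eq]
    refine ⟨⟨⟨ha 0, ha 1, ha 2, hd⟩, ?_⟩, hQ⟩
    rw [adm_iff]
    have e : (![a 0, a 1, a 2] : Fin 3 → ℤ) = a := by
      funext i
      fin_cases i <;> rfl
    rw [e]
    exact had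
  · rintro ⟨a, b, c, d⟩ _
    rfl
  · rintro ⟨a, d⟩ _
    refine Prod.ext ?_ rfl
    funext i
    fin_cases i <;> rfl

open Classical in
theorem card_quad (A D : ℕ) : (quadruples A D).card =
    ((V3 A ×ˢ Icc (-(D : ℤ)) D).filter
      (fun t : (Fin 3 → ℤ) × ℤ => Adq t.1 t.2)).card := by
  have h := card_eq A D (fun _ _ _ _ => True)
  have h1 : ((quadruples A D).filter (fun _ => True)).card = (quadruples A D).card := by
    congr 1
    exact filter_true_of_mem (fun _ _ => trivial)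
  rw [← h1]
  refine Eq.trans ?_ (h.trans ?_)
  · congr
  · congr 1
    ext t
    simp only [mem_filter, and_true]

theorem card_to_V3 {A D : ℕ} (s : Finset (ℤ × ℤ × ℤ × ℤ)) (hs : s ⊆ quadruples A D)
    (E : Finset ((Fin 3 → ℤ) × ℤ))
    (hE : ∀ t ∈ s, ((![t.1, t.2.1, t.2.2.1], t.2.2.2) : (Fin 3 → ℤ) × ℤ) ∈
      V3 A ×ˢ Icc (-(D : ℤ)) D → Adq ![t.1, t.2.1, t.2.2.1] t.2.2.2 →
      ((![t.1, t.2.1, t.2.2.1], t.2.2.2) : (Fin 3 → ℤ) × ℤ) ∈ E) : s.card ≤ E.card := by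
  classical
  refine card_le_card_of_injOn (fun t => (![t.1, t.2.1, t.2.2.1], t.2.2.2)) ?_ ?_
  · intro t ht
    have h1 := hs (mem_coe.1 ht)
    unfold quadruples at h1
    rw [mem_filter, mem_product, mem_product, mem_product] at h1
    obtain ⟨⟨ha, hb, hc, hd⟩, had⟩ := h1
    refine mem_coe.2 (hE t (mem_coe.1 ht) (mem_product.2 ⟨?_, hd⟩) ((adm_iff _ _ _ _).1 had))
    unfold V3
    rw [Fintype.mem_piFinset]
    intro i
    fin_cases i
    · exact ha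
    · exact hb
    · exact hc
  · rintro ⟨a, b, c, d⟩ _ ⟨a', b', c', d'⟩ _ h
    rw [Prod.mk.injEq] at h
    have h0 : a = a' := congrFun h.1 0
    have h1 : b = b' := congrFun h.1 1
    have h2 : c = c' := congrFun h.1 2
    have h3 : d = d' := h.2
    rw [h0, h1, h2, h3]

/-- from few exceptions to a proportion close to one -/
theorem to_one {c₀ : ℝ} (hc₀ : 0 < c₀) {A D : ℕ} (hA : 1 ≤ A) (hD : 1 ≤ D)
    (hden : c₀ * ((A : ℝ) ^ 3 * D) ≤ ((quadruples A D).card : ℝ)) (Q : ℤ → ℤ → ℤ → ℤ → Prop)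
    {ε : ℝ} (E : Finset ((Fin 3 → ℤ) × ℤ))
    (hE : ∀ t ∈ V3 A ×ˢ Icc (-(D : ℤ)) D, Adq t.1 t.2 → ¬ Q (t.1 0) (t.1 1) (t.1 2) t.2 → t ∈ E)
    (hEc : (E.card : ℝ) ≤ (ε * c₀) * ((A : ℝ) ^ 3 * D)) : 1 - ε ≤ proportion A D Q := by
  classical
  have hA0 : (0 : ℝ) < A := by exact_mod_cast hA
  have hD0 : (0 : ℝ) < D := by exact_mod_cast hD
  have hq : (0 : ℝ) < (quadruples A D).card := lt_of_lt_of_le (by positivity) hden
  unfold proportion
  rw [le_div_iff₀ hq]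
  have h1 : ((quadruples A D).filter (fun t => ¬ Q t.1 t.2.1 t.2.2.1 t.2.2.2)).card ≤ E.card := by
    refine card_to_V3 _ (filter_subset _ _) E fun t ht h1 h2 => hE _ h1 h2 (mem_filter.1 ht).2
  have h2 := card_filter_add_card_filter_not (s := quadruples A D)
    (fun t => Q t.1 t.2.1 t.2.2.1 t.2.2.2)
  have h3 : (((quadruples A D).filter (fun t => Q t.1 t.2.1 t.2.2.1 t.2.2.2)).card : ℝ) +
      (((quadruples A D).filter (fun t => ¬ Q t.1 t.2.1 t.2.2.1 t.2.2.2)).card : ℝ) =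
      (quadruples A D).card := by exact_mod_cast h2
  have h4 : (((quadruples A D).filter (fun t => ¬ Q t.1 t.2.1 t.2.2.1 t.2.2.2)).card : ℝ) ≤
      E.card := by exact_mod_cast h1
  have hε : 0 ≤ ε := by
    have h5 : (0 : ℝ) ≤ (ε * c₀) * ((A : ℝ) ^ 3 * D) := (Nat.cast_nonneg _).trans hEc
    by_contra hc
    push Not at hc
    have h6 : ε * c₀ < 0 := mul_neg_of_neg_of_pos hc hc₀
    have h7 : (ε * c₀) * ((A : ℝ) ^ 3 * D) < 0 := mul_neg_of_neg_of_pos h6 (by positivity)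
    linarith
  have h5 := mul_le_mul_of_nonneg_left hden hε
  nlinarith

theorem to_zero {c₀ : ℝ} (hc₀ : 0 < c₀) {A D : ℕ} (hA : 1 ≤ A) (hD : 1 ≤ D)
    (hden : c₀ * ((A : ℝ) ^ 3 * D) ≤ ((quadruples A D).card : ℝ)) (Q : ℤ → ℤ → ℤ → ℤ → Prop)
    {ε : ℝ} (E : Finset ((Fin 3 → ℤ) × ℤ))
    (hE : ∀ t ∈ V3 A ×ˢ Icc (-(D : ℤ)) D, Adq t.1 t.2 → Q (t.1 0) (t.1 1) (t.1 2) t.2 → t ∈ E)
    (hEc : (E.card : ℝ) ≤ (ε * c₀) * ((A : ℝ) ^ 3 * D)) : proportion A D Q ≤ ε := by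
  classical
  have hA0 : (0 : ℝ) < A := by exact_mod_cast hA
  have hD0 : (0 : ℝ) < D := by exact_mod_cast hD
  have hq : (0 : ℝ) < (quadruples A D).card := lt_of_lt_of_le (by positivity) hden
  unfold proportion
  rw [div_le_iff₀ hq]
  have h1 : ((quadruples A D).filter (fun t => Q t.1 t.2.1 t.2.2.1 t.2.2.2)).card ≤ E.card := by
    refine card_to_V3 _ (filter_subset _ _) E fun t ht h1 h2 => hE _ h1 h2 (mem_filter.1 ht).2
  have h4 : (((quadruples A D).filter (fun t => Q t.1 t.2.1 t.2.2.1 t.2.2.2)).card : ℝ) ≤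
      E.card := by exact_mod_cast h1
  have hε : 0 ≤ ε := by
    have h5 : (0 : ℝ) ≤ (ε * c₀) * ((A : ℝ) ^ 3 * D) := (Nat.cast_nonneg _).trans hEc
    by_contra hc
    push Not at hc
    have h6 : ε * c₀ < 0 := mul_neg_of_neg_of_pos hc hc₀
    have h7 : (ε * c₀) * ((A : ℝ) ^ 3 * D) < 0 := mul_neg_of_neg_of_pos h6 (by positivity)
    linarith
  have h5 := mul_le_mul_of_nonneg_left hden hε
  nlinarith

theorem psd_prime {X : ℝ} {a : Fin 3 → ℤ} {d : ℤ} (h : PSd X a d) :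
    PrimeSolution X (a 0) (a 1) (a 2) d := by
  obtain ⟨P, hP, hd⟩ := h
  refine ⟨P 0, P 1, P 2, (hP 0).1, (hP 1).1, (hP 2).1, hd, ?_⟩
  push_cast
  exact max_le (hP 0).2 (max_le (hP 1).2 (hP 2).2)

theorem fin_ (h1 : S_MAIN) (h2 : S_LOW) (h3 : S_DEN) : S_FIN := by
  classical
  obtain ⟨κ, h1⟩ := h1
  obtain ⟨C, hC, h2⟩ := h2
  obtain ⟨c₀, hc₀, A₁, h3⟩ := h3
  have hden : ∀ A : ℕ, A₁ ≤ A → ∀ D : ℕ, c₀ * ((A : ℝ) ^ 3 * D) ≤ ((quadruples A D).card : ℝ) := by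
    intro A hA D
    rw [card_quad]
    have := h3 A hA D
    convert this using 2
  have hmain : ∀ ε : ℝ, 0 < ε → ∃ A₀ : ℕ, ∀ A : ℕ, A₀ ≤ A → ∀ D : ℕ, A ≤ D → D ^ 2 ≤ A ^ 3 →
      (((V3 A ×ˢ Icc (-(D : ℤ)) D).filter (fun t => Adq t.1 t.2 ∧
      ¬ PSd ((A : ℝ) ^ (1 / 2 : ℝ) * Real.log A ^ κ) t.1 t.2)).card : ℝ) ≤
      ε * ((A : ℝ) ^ 3 * D) := by
    intro ε hε
    obtain ⟨A₀, hA₀⟩ := h1 ε hε
    refine ⟨A₀, fun A hA D hAD hDA => ?_⟩
    have := hA₀ A hA D hAD hDA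
    convert this using 2
  refine ⟨⟨c₀, hc₀, A₁, fun A hA D _ => hden A hA D⟩, ⟨κ, ?_⟩, ?_, ?_⟩
  · intro ε hε
    obtain ⟨A₀, hA₀⟩ := hmain (ε * c₀) (by positivity)
    refine ⟨A₀ + A₁ + 1, fun A hA D hAD hDA => ?_⟩
    refine to_one hc₀ (by omega) (by omega) (hden A (by omega) D) _ _ ?_
      (hA₀ A (by omega) D hAD hDA)
    intro t ht had hn
    rw [mem_filter]
    exact ⟨ht, had, fun h => hn (psd_prime h)⟩
  · intro ε hε
    obtain ⟨δ, hδ0, hδ1, hδ⟩ : ∃ δ : ℝ, 0 < δ ∧ δ ≤ 1 ∧ C * δ ^ 2 ≤ ε * c₀ := by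
      refine ⟨min 1 (ε * c₀ / (C + 1)), by positivity, min_le_left _ _, ?_⟩
      set δ := min 1 (ε * c₀ / (C + 1)) with hδ
      have a1 : δ ≤ 1 := min_le_left _ _
      have a2 : δ ≤ ε * c₀ / (C + 1) := min_le_right _ _
      have a0 : 0 < δ := by positivity
      rw [le_div_iff₀ (by positivity)] at a2
      calc C * δ ^ 2 ≤ (δ * (C + 1)) * δ := by nlinarith
        _ ≤ (ε * c₀) * δ := mul_le_mul_of_nonneg_right a2 a0.le
        _ ≤ (ε * c₀) * 1 := mul_le_mul_of_nonneg_left a1 (by positivity)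
        _ = ε * c₀ := mul_one _
    refine ⟨δ, hδ0, A₁ + 1, fun A hA D hAD => ?_⟩
    have hA1 : 1 ≤ A := by omega
    have hA0 : (0 : ℝ) < A := by exact_mod_cast hA1
    have hA1' : (1 : ℝ) ≤ A := by exact_mod_cast hA1
    have hsq : ((A : ℝ) ^ (1 / 2 : ℝ)) ^ 2 = A := by
      rw [← Real.sqrt_eq_rpow, Real.sq_sqrt hA0.le]
    have hs0 : 0 ≤ (A : ℝ) ^ (1 / 2 : ℝ) := by positivity
    obtain ⟨X, hX⟩ : ∃ X : ℕ, X = ⌊δ * (A : ℝ) ^ (1 / 2 : ℝ)⌋₊ := ⟨_, rfl⟩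
    have hXle : (X : ℝ) ≤ δ * (A : ℝ) ^ (1 / 2 : ℝ) := by
      rw [hX]; exact Nat.floor_le (by positivity)
    by_cases hX1 : 1 ≤ X
    · have hXA : X ≤ A := by
        have a1 : (X : ℝ) ^ 2 ≤ A := by
          calc (X : ℝ) ^ 2 ≤ (δ * (A : ℝ) ^ (1 / 2 : ℝ)) ^ 2 :=
                pow_le_pow_left₀ (Nat.cast_nonneg _) hXle 2
            _ = δ ^ 2 * A := by rw [mul_pow, hsq]
            _ ≤ 1 * A := by
                apply mul_le_mul_of_nonneg_right _ hA0.le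
                nlinarith
            _ = A := one_mul _
        have a2 : X ^ 2 ≤ A := by exact_mod_cast a1
        nlinarith
      have hlow := h2 A D X hX1 hXA hAD
      refine to_zero hc₀ hA1 (by omega) (hden A (by omega) D) _
        ((V3 A ×ˢ Icc (-(D : ℤ)) D).filter (fun t => ∃ P : Fin 3 → ℤ, P ≠ 0 ∧ (∀ i, |P i| ≤ X) ∧
          dt t.1 P = t.2)) ?_ ?_
      · intro t ht _ hQ
        obtain ⟨x, y, z, h0, hd, hm⟩ := hQ
        rw [mem_filter]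
        refine ⟨ht, ![x, y, z], ?_, ?_, hd⟩
        · intro h
          exact h0 ⟨congrFun h 0, congrFun h 1, congrFun h 2⟩
        · have key : ∀ w : ℤ, |w| ≤ max |x| (max |y| |z|) → |w| ≤ (X : ℤ) := by
            intro w hw
            have a1 : ((|w| : ℤ) : ℝ) ≤ δ * (A : ℝ) ^ (1 / 2 : ℝ) := by
              refine le_trans ?_ hm
              exact_mod_cast hw
            have a2 : (w.natAbs : ℝ) ≤ δ * (A : ℝ) ^ (1 / 2 : ℝ) := by
              rw [Int.abs_eq_natAbs, Int.cast_natCast] at a1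
              exact a1
            have a3 : w.natAbs ≤ X := by rw [hX]; exact Nat.le_floor a2
            rw [Int.abs_eq_natAbs]
            exact_mod_cast a3
          intro i
          fin_cases i
          · exact key x (le_max_left _ _)
          · exact key y ((le_max_left _ _).trans (le_max_right _ _))
          · exact key z ((le_max_right _ _).trans (le_max_right _ _))
      · have a1 : ((((V3 A ×ˢ Icc (-(D : ℤ)) D).filter (fun t => ∃ P : Fin 3 → ℤ, P ≠ 0 ∧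
            (∀ i, |P i| ≤ X) ∧ dt t.1 P = t.2)).card : ℕ) : ℝ) ≤
            C * (A : ℝ) ^ 2 * D * (X : ℝ) ^ 2 := by
          convert hlow using 2
        refine a1.trans ?_
        have a2 : (X : ℝ) ^ 2 ≤ δ ^ 2 * A := by
          calc (X : ℝ) ^ 2 ≤ (δ * (A : ℝ) ^ (1 / 2 : ℝ)) ^ 2 :=
                pow_le_pow_left₀ (Nat.cast_nonneg _) hXle 2
            _ = δ ^ 2 * A := by rw [mul_pow, hsq]
        calc C * (A : ℝ) ^ 2 * D * (X : ℝ) ^ 2 ≤ C * (A : ℝ) ^ 2 * D * (δ ^ 2 * A) :=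
              mul_le_mul_of_nonneg_left a2 (by positivity)
          _ = (C * δ ^ 2) * ((A : ℝ) ^ 3 * D) := by ring
          _ ≤ (ε * c₀) * ((A : ℝ) ^ 3 * D) := mul_le_mul_of_nonneg_right hδ (by positivity)
    · refine to_zero hc₀ hA1 (by omega) (hden A (by omega) D) _ ∅ ?_ ?_
      · intro t ht _ hQ
        exfalso
        obtain ⟨x, y, z, h0, hd, hm⟩ := hQ
        have key : ∀ w : ℤ, |w| ≤ max |x| (max |y| |z|) → w = 0 := by
          intro w hw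
          have a1 : ((|w| : ℤ) : ℝ) ≤ δ * (A : ℝ) ^ (1 / 2 : ℝ) := by
            refine le_trans ?_ hm
            exact_mod_cast hw
          have a2 : (w.natAbs : ℝ) ≤ δ * (A : ℝ) ^ (1 / 2 : ℝ) := by
            rw [Int.abs_eq_natAbs, Int.cast_natCast] at a1
            exact a1
          have a3 : w.natAbs ≤ X := by rw [hX]; exact Nat.le_floor a2
          omega
        exact h0 ⟨key x (le_max_left _ _), key y ((le_max_left _ _).trans (le_max_right _ _)),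
          key z ((le_max_right _ _).trans (le_max_right _ _))⟩
      · rw [card_empty, Nat.cast_zero]
        positivity
  · intro μ ε hε
    obtain ⟨A₀, hA₀⟩ := hmain (ε * c₀ / 2) (by positivity)
    obtain ⟨τ, hτ0, hτ⟩ : ∃ τ : ℝ, 0 < τ ∧ τ = ε * c₀ / 162 := ⟨ε * c₀ / 162, by positivity, rfl⟩
    -- the power of the logarithm is small
    have hlim : ∀ᶠ x : ℝ in atTop, Real.log x ^ κ ≤ τ * x ^ (1 / 2 : ℝ) := by
      have h := (isLittleO_log_rpow_rpow_atTop (κ : ℝ) (show (0 : ℝ) < 1 / 2 by norm_num)).bound hτ0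
      filter_upwards [h, eventually_ge_atTop 1] with x hx hx1
      rw [Real.norm_eq_abs, Real.norm_eq_abs, Real.rpow_natCast,
        abs_of_nonneg (by positivity : (0 : ℝ) ≤ x ^ (1 / 2 : ℝ)),
        abs_of_nonneg (pow_nonneg (Real.log_nonneg hx1) κ)] at hx
      exact hx
    obtain ⟨A₂, hA₂⟩ := eventually_atTop.1 (tendsto_natCast_atTop_atTop.eventually hlim)
    refine ⟨A₀ + A₁ + A₂ + ⌈1 / τ⌉₊ + 1, fun A hA D hAD hDA => ?_⟩
    have hA1 : 1 ≤ A := by omega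
    have hA0 : (0 : ℝ) < A := by exact_mod_cast hA1
    have hD0 : (0 : ℝ) < D := by exact_mod_cast (by omega : 0 < D)
    have hAD' : (A : ℝ) ≤ D := by exact_mod_cast hAD
    have hτA : 1 ≤ τ * A := by
      have h : 1 / τ ≤ A := by
        refine (Nat.le_ceil _).trans ?_
        exact_mod_cast (by omega : ⌈1 / τ⌉₊ ≤ A)
      rw [div_le_iff₀ hτ0] at h
      linarith
    set E₁ := (V3 A ×ˢ Icc (-(D : ℤ)) D).filter (fun t => Adq t.1 t.2 ∧
      ¬ PSd ((A : ℝ) ^ (1 / 2 : ℝ) * Real.log A ^ κ) t.1 t.2) with hE₁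
    obtain ⟨L, hL⟩ : ∃ L : ℕ, L = ⌊τ * A⌋₊ := ⟨_, rfl⟩
    have hLle : (L : ℝ) ≤ τ * A := by rw [hL]; exact Nat.floor_le (by positivity)
    set E₂ := V3 A ×ˢ Icc (-(L : ℤ)) L with hE₂
    refine to_one hc₀ hA1 (by omega) (hden A (by omega) D) _ (E₁ ∪ E₂) ?_ ?_
    · intro t ht had hn
      rw [mem_union]
      by_contra hc
      push Not at hc
      obtain ⟨hc1, hc2⟩ := hc
      apply hn
      have hps : PSd ((A : ℝ) ^ (1 / 2 : ℝ) * Real.log A ^ κ) t.1 t.2 := by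
        by_contra hx
        exact hc1 (mem_filter.2 ⟨ht, had, hx⟩)
      obtain ⟨p, q, r, hp, hq, hr, hd, hm⟩ := psd_prime hps
      refine ⟨p, q, r, hp, hq, hr, hd, hm.trans ?_⟩
      have hdL : (L : ℤ) < |t.2| := by
        by_contra hx
        push Not at hx
        exact hc2 (mem_product.2 ⟨(mem_product.1 ht).1, mem_Icc.2 (abs_le.1 hx)⟩)
      have hdτ : τ * A < |(t.2 : ℝ)| := by
        have h5 : (L : ℝ) + 1 ≤ |(t.2 : ℝ)| := by exact_mod_cast hdL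
        have h6 : τ * A < L + 1 := by rw [hL]; exact Nat.lt_floor_add_one _
        linarith
      have h7 : (A : ℝ) ^ (1 / 2 : ℝ) * Real.log A ^ κ ≤ τ * A := by
        have h8 := hA₂ A (by omega)
        calc (A : ℝ) ^ (1 / 2 : ℝ) * Real.log A ^ κ ≤
            (A : ℝ) ^ (1 / 2 : ℝ) * (τ * (A : ℝ) ^ (1 / 2 : ℝ)) :=
              mul_le_mul_of_nonneg_left h8 (by positivity)
          _ = τ * ((A : ℝ) ^ (1 / 2 : ℝ)) ^ 2 := by ring
          _ = τ * A := by rw [← Real.sqrt_eq_rpow, Real.sq_sqrt hA0.le]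
      have h9 : (0 : ℝ) ≤ ((max 3 (max |t.1 0| (max |t.1 1| |t.1 2|)) : ℤ) : ℝ) ^ μ := by
        apply Real.rpow_nonneg
        have : (0 : ℤ) ≤ max 3 (max |t.1 0| (max |t.1 1| |t.1 2|)) :=
          le_trans (by norm_num) (le_max_left _ _)
        exact_mod_cast this
      have h10 := abs_nonneg (t.2 : ℝ)
      linarith
    · have b1 : (E₁.card : ℝ) ≤ ε * c₀ / 2 * ((A : ℝ) ^ 3 * D) := hA₀ A (by omega) D hAD hDA
      have b2 : (E₂.card : ℝ) ≤ 81 * τ * ((A : ℝ) ^ 3 * D) := by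
        rw [hE₂, card_product]
        unfold V3
        rw [Fintype.card_piFinset, prod_const, card_univ, Fintype.card_fin, Int.card_Icc,
          Int.card_Icc]
        have e1 : ((A : ℤ) + 1 - -(A : ℤ)).toNat = 2 * A + 1 := by omega
        have e2 : ((L : ℤ) + 1 - -(L : ℤ)).toNat = 2 * L + 1 := by omega
        rw [e1, e2]
        push_cast
        have h1A : (1 : ℝ) ≤ A := by exact_mod_cast hA1
        calc (2 * (A : ℝ) + 1) ^ 3 * (2 * L + 1) ≤ (3 * (A : ℝ)) ^ 3 * (3 * (τ * A)) := by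
              apply mul_le_mul _ (by linarith) (by positivity) (by positivity)
              exact pow_le_pow_left₀ (by positivity) (by linarith) 3
          _ = 81 * τ * ((A : ℝ) ^ 3 * A) := by ring
          _ ≤ 81 * τ * ((A : ℝ) ^ 3 * D) := by gcongr
      have b3 : ((E₁ ∪ E₂).card : ℝ) ≤ E₁.card + E₂.card := by exact_mod_cast card_union_le _ _
      have b4 : 81 * τ = ε * c₀ / 2 := by rw [hτ]; ring
      rw [b4] at b2
      calc ((E₁ ∪ E₂).card : ℝ) ≤ ε * c₀ / 2 * ((A : ℝ) ^ 3 * D) + ε * c₀ / 2 * ((A : ℝ) ^ 3 * D) := by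
            linarith
        _ = _ := by ring

end Pool.Agent.L7h8.BE
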