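import Pool.Agent.L7h8.BE.Main
import Pool.Agent.L7h8.BE.Fin
import Pool.Agent.L7h47.BE.Locu
import Pool.Agent.L7h47.BE.Red
import Pool.Agent.L7h47.BE.Geo
import Pool.Agent.L7h47.BE.Exc3
import Pool.Agent.N718.DC.All
import Pool.Agent.L7h32.BE.Cnt
import Pool.Agent.L7h32.BE.Den

/-!
# Project BE: assembly
-/

set_option autoImplicit false

namespace Pool.Agent.L7h8.BE

theorem main' : S_MAIN := main_ Pool.Agent.L7h47.BE.geo Pool.Agent.L7h47.BE.red
  Pool.Agent.L7h47.BE.locu (Pool.Agent.L7h47.BE.exc_ Pool.Agent.N718.DC.fix') slab Pool.Agent.L7h32.BE.badc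

theorem fin' : S_FIN := fin_ main' Pool.Agent.L7h32.BE.low Pool.Agent.L7h32.BE.den

end Pool.Agent.L7h8.BE
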