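import Pool.Agent.L7h8.BE.Slab

/-!
# Project BE: the triples in one residue class
-/

set_option autoImplicit false

namespace Pool.Agent.L7h8.BE

open Finset Filter
open Pool.Agent.N718.LB (V3 cr dt)

theorem mem_V3 {H : ℕ} {v : Fin 3 → ℤ} : v ∈ V3 H ↔ ∀ i, |v i| ≤ (H : ℤ) := by
  unfold V3
  rw [Fintype.mem_piFinset]
  simp only [mem_Icc, abs_le]

theorem card_V3 (H : ℕ) : (V3 H).card = (2 * H + 1) ^ 3 := by
  unfold V3
  rw [Fintype.card_piFinset, prod_const, card_univ, Fintype.card_fin, Int.card_Icc]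
  congr 1
  omega

/-- the trivial bound -/
theorem triv {K Ks H D : ℕ} (hK : 1 ≤ K) (hKs : 1 ≤ Ks) (hH : 1 ≤ H) (hD : H ^ 2 ≤ 4 * D)
    {N : Fin 3 → ℤ} (hN : (H : ℤ) ^ 2 ≤ 2 * K * |N 2|) (S : Finset (Fin 3 → ℤ))
    (hS : ∀ v ∈ S, (∀ i, |v i| ≤ ((Ks * H : ℕ) : ℤ)) ∧ |dt v N| ≤ D) :
    (S.card : ℝ) ≤ 9 * (Ks : ℝ) ^ 2 * (4 * K + 4) * D := by
  classical
  have hK0 : (0 : ℝ) < K := by exact_mod_cast hK
  have hH0 : (0 : ℝ) < H := by exact_mod_cast hH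
  have hN' : (H : ℝ) ^ 2 ≤ 2 * K * |(N 2 : ℝ)| := by exact_mod_cast hN
  have hNpos : (0 : ℝ) < |(N 2 : ℝ)| := by
    rcases (abs_nonneg (N 2 : ℝ)).lt_or_eq with h | h
    · exact h
    · rw [← h, mul_zero] at hN'
      nlinarith [sq_pos_of_pos hH0]
  have hN0 : (N 2 : ℝ) ≠ 0 := abs_pos.1 hNpos
  have hD' : (H : ℝ) ^ 2 ≤ 4 * D := by exact_mod_cast hD
  have hD0 : (0 : ℝ) < D := by nlinarith [sq_pos_of_pos hH0]
  set I := Icc (-((Ks * H : ℕ) : ℤ)) ((Ks * H : ℕ) : ℤ) with hI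
  have hIc : (I.card : ℝ) ≤ 3 * (Ks * H) := by
    rw [hI, Int.card_Icc]
    have h1 : (((Ks * H : ℕ) : ℤ) + 1 - -((Ks * H : ℕ) : ℤ)).toNat = 2 * (Ks * H) + 1 := by omega
    rw [h1]
    have h2 : 1 ≤ Ks * H := Nat.mul_pos hKs hH
    have h3 : (1 : ℝ) ≤ Ks * H := by exact_mod_cast h2
    push_cast
    linarith
  have h1 : S.card = ∑ p ∈ I ×ˢ I, (S.filter (fun v => (v 0, v 1) = p)).card :=
    card_eq_sum_card_fiberwise (fun v hv => mem_coe.2 (mem_product.2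
      ⟨mem_Icc.2 (abs_le.1 ((hS v hv).1 0)), mem_Icc.2 (abs_le.1 ((hS v hv).1 1))⟩))
  have h2 : ∀ p ∈ I ×ˢ I, ((S.filter (fun v => (v 0, v 1) = p)).card : ℝ) ≤
      (4 * K + 4) * D / H ^ 2 := by
    intro p _
    have h3 : (S.filter (fun v => (v 0, v 1) = p)).card =
        ((S.filter (fun v => (v 0, v 1) = p)).image (fun v => v 2)).card := by
      rw [card_image_of_injOn]
      intro v hv v' hv' h
      rw [mem_coe, mem_filter] at hv hv'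
      have h4 := hv.2.trans hv'.2.symm
      rw [Prod.mk.injEq] at h4
      funext i
      fin_cases i
      · exact h4.1
      · exact h4.2
      · exact h
    rw [h3]
    have h4 := cnt_ivl ((S.filter (fun v => (v 0, v 1) = p)).image (fun v => v 2))
      (((p.1 : ℝ) * N 0 + p.2 * N 1) / N 2) ((D : ℝ) / |(N 2 : ℝ)|) (by positivity) (by
        intro s hs
        obtain ⟨v, hv, rfl⟩ := mem_image.1 hs
        rw [mem_filter] at hv
        have h5 : (v 0 : ℤ) = p.1 := congrArg Prod.fst hv.2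
        have h6 : (v 1 : ℤ) = p.2 := congrArg Prod.snd hv.2
        have h7 : |(dt v N : ℝ)| ≤ D := by exact_mod_cast (hS v hv.1).2
        have h8 : (v 2 : ℝ) + ((p.1 : ℝ) * N 0 + p.2 * N 1) / N 2 = (dt v N : ℝ) / N 2 := by
          rw [← h5, ← h6]
          unfold dt
          push_cast
          field_simp
          ring
        rw [h8, abs_div]
        exact div_le_div_of_nonneg_right h7 hNpos.le)
    refine h4.trans ?_
    have h5 : (D : ℝ) / |(N 2 : ℝ)| ≤ 2 * K * D / H ^ 2 := by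
      rw [div_le_div_iff₀ hNpos (by positivity)]
      have := mul_le_mul_of_nonneg_left hN' hD0.le
      nlinarith
    have h6 : (1 : ℝ) ≤ 4 * D / H ^ 2 := by
      rw [le_div_iff₀ (by positivity)]
      linarith
    calc 2 * ((D : ℝ) / |(N 2 : ℝ)|) + 1 ≤ 2 * (2 * K * D / H ^ 2) + 4 * D / H ^ 2 := by linarith
      _ = (4 * K + 4) * D / H ^ 2 := by ring
  rw [h1]
  push_cast
  calc ∑ p ∈ I ×ˢ I, ((S.filter (fun v => (v 0, v 1) = p)).card : ℝ) ≤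
      ∑ _p ∈ I ×ˢ I, (4 * (K : ℝ) + 4) * D / H ^ 2 := sum_le_sum h2
    _ = (I.card : ℝ) * I.card * ((4 * (K : ℝ) + 4) * D / H ^ 2) := by
        rw [sum_const, card_product, nsmul_eq_mul]
        push_cast
        ring
    _ ≤ (3 * (Ks * H)) * (3 * (Ks * H)) * ((4 * (K : ℝ) + 4) * D / H ^ 2) := by
        gcongr
    _ = 9 * (Ks : ℝ) ^ 2 * (4 * K + 4) * D := by
        field_simp
        ring

open Classical in
/-- the exceptional pairs -/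
noncomputable def Ex (κ M B K H : ℕ) (γ δ : Fin 3 → ℤ) : Finset ((Fin 3 → ℤ) × (Fin 3 → ℤ)) :=
  (V3 (B * H) ×ˢ V3 (K * H)).filter (fun t =>
      (∀ i, (M : ℤ) ∣ t.1 i - γ i ∧ (M : ℤ) ∣ t.2 i - δ i) ∧ (∀ i, (H : ℤ) ≤ K * t.2 i) ∧
      ¬ ∃ y : ℤ, |(y : ℝ)| ≤ Real.log H ^ κ ∧
        ∃ P : Fin 3 → ℕ, ∀ i, (P i).Prime ∧ t.1 i + y * t.2 i = P i)

open Classical in
/-- the third vectors -/
noncomputable def Th (M Ks x H D : ℕ) (ε : Fin 3 → ℤ) (t : (Fin 3 → ℤ) × (Fin 3 → ℤ)) :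
    Finset (Fin 3 → ℤ) :=
  (V3 (Ks * H)).filter (fun v => (∀ i, (M : ℤ) ∣ v i - ε i) ∧
    (∀ i, |t.1 i - x * v i| ≤ Ks * H) ∧ |dt v (cr t.2 t.1)| ≤ D)

open Classical in
/-- the pairs with a large third coordinate of the cross product -/
noncomputable def ExN (κ M B K H x : ℕ) (γ δ : Fin 3 → ℤ) : Finset ((Fin 3 → ℤ) × (Fin 3 → ℤ)) :=
  (Ex κ M B K H γ δ).filter (fun t => (x : ℤ) * H ^ 2 ≤ 2 * K * |cr t.2 t.1 2|)

theorem cls (hS : S_SLAB) (hB : S_BADC) : ∃ C₂ : ℝ, 0 ≤ C₂ ∧ ∀ (κ M x B K Ks : ℕ), 1 ≤ M → 1 ≤ x →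
    1 ≤ K → 2 * K ≤ Ks → K ≤ B →
    ∃ C₃ : ℝ, 0 ≤ C₃ ∧ ∃ H₀ : ℕ, ∀ H : ℕ, H₀ ≤ H → ∀ D : ℕ, H ^ 2 ≤ 4 * D →
    ∀ γ δ ε : Fin 3 → ℤ,
    ((∑ t ∈ ExN κ M B K H x γ δ, (Th M Ks x H D ε t).card : ℕ) : ℝ) ≤
      (Ex κ M B K H γ δ).card * (C₂ * (Ks : ℝ) ^ 3 * D / ((x : ℝ) ^ 3 * (M : ℝ) ^ 3)) +
      C₃ * (H : ℝ) ^ 4 * D := by
  classical
  obtain ⟨C₂, hC₂, hS⟩ := hS
  refine ⟨C₂, hC₂, ?_⟩
  intro κ M x B K Ks hM hx hK hKs hKB
  have hKs1 : 1 ≤ Ks := by omega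
  obtain ⟨R, H₀, hS⟩ := hS Ks M x B hKs1 hM hx
  obtain ⟨C₃, hC₃, hB⟩ := hB R B
  refine ⟨C₃ * (9 * (Ks : ℝ) ^ 2 * (4 * K + 4)), by positivity, H₀ + 1, ?_⟩
  intro H hH D hD γ δ ε
  have hH1 : 1 ≤ H := by omega
  set bad : Finset ((Fin 3 → ℤ) × (Fin 3 → ℤ)) :=
    (V3 (B * H) ×ˢ V3 (B * H)).filter (fun t => ∃ h : Fin 3 → ℤ, h ≠ 0 ∧ (∀ i, |h i| ≤ R) ∧
    |dt t.2 h| ≤ R ∧ |dt t.1 h| ≤ R) with hbad
  set c₁ : ℝ := C₂ * (Ks : ℝ) ^ 3 * D / ((x : ℝ) ^ 3 * (M : ℝ) ^ 3) with hc₁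
  set c₂ : ℝ := 9 * (Ks : ℝ) ^ 2 * (4 * K + 4) * D with hc₂
  have hc₁0 : 0 ≤ c₁ := by positivity
  have hc₂0 : 0 ≤ c₂ := by positivity
  have hone : ∀ t ∈ ExN κ M B K H x γ δ, ((Th M Ks x H D ε t).card : ℝ) ≤
      c₁ + (if t ∈ bad then c₂ else 0) := by
    intro t ht
    unfold ExN at ht
    rw [mem_filter] at ht
    obtain ⟨ht1, ht2⟩ := ht
    unfold Ex at ht1
    rw [mem_filter, mem_product] at ht1
    obtain ⟨⟨ht1, ht3⟩, _⟩ := ht1
    have hu : ∀ i, |t.1 i| ≤ B * H := by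
      intro i
      have := mem_V3.1 ht1 i
      push_cast at this
      exact this
    have hw : ∀ i, |t.2 i| ≤ B * H := by
      intro i
      have h1 := mem_V3.1 ht3 i
      push_cast at h1
      have h2 : (K : ℤ) * H ≤ B * H := by
        have : (K : ℤ) ≤ B := by exact_mod_cast hKB
        exact mul_le_mul_of_nonneg_right this (by positivity)
      exact h1.trans h2
    have hKs' : (2 : ℤ) * K ≤ Ks := by exact_mod_cast hKs
    have hN : (x : ℤ) * H ^ 2 ≤ Ks * |cr t.2 t.1 2| :=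
      ht2.trans (mul_le_mul_of_nonneg_right hKs' (abs_nonneg _))
    by_cases hb : t ∈ bad
    · rw [if_pos hb]
      have h1 := triv (K := K) (Ks := Ks) (H := H) (D := D) (N := cr t.2 t.1) hK hKs1 hH1 hD (by
        refine le_trans ?_ ht2
        have : (1 : ℤ) ≤ x := by exact_mod_cast hx
        nlinarith [sq_nonneg (H : ℤ)]) (Th M Ks x H D ε t) (by
        intro v hv
        unfold Th at hv
        rw [mem_filter] at hv
        exact ⟨mem_V3.1 hv.1, hv.2.2.2⟩)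
      linarith
    · rw [if_neg hb, add_zero]
      rcases hS H (by omega) D hD t.1 t.2 hu hw hN ε with h | ⟨h, hh0, hh1, hh2, hh3⟩
      · unfold Th
        convert h using 2
      · exfalso
        apply hb
        rw [hbad, mem_filter, mem_product, mem_V3, mem_V3]
        push_cast
        exact ⟨⟨hu, hw⟩, h, hh0, hh1, hh2, hh3⟩
  have hbc : (bad.card : ℝ) ≤ C₃ * (H : ℝ) ^ 4 := by
    have := hB H hH1
    rw [hbad]
    convert this using 2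
  push_cast
  calc ∑ t ∈ ExN κ M B K H x γ δ, ((Th M Ks x H D ε t).card : ℝ) ≤
      ∑ t ∈ ExN κ M B K H x γ δ, (c₁ + (if t ∈ bad then c₂ else 0)) := sum_le_sum hone
    _ ≤ (Ex κ M B K H γ δ).card * c₁ + bad.card * c₂ := by
        rw [sum_add_distrib, sum_const, nsmul_eq_mul]
        refine add_le_add ?_ ?_
        · refine mul_le_mul_of_nonneg_right ?_ hc₁0
          exact_mod_cast card_le_card (filter_subset _ _)
        · rw [← sum_filter, sum_const, nsmul_eq_mul]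
          refine mul_le_mul_of_nonneg_right ?_ hc₂0
          exact_mod_cast card_le_card (fun t ht => (mem_filter.1 ht).2)
    _ ≤ (Ex κ M B K H γ δ).card * c₁ + C₃ * (H : ℝ) ^ 4 * c₂ := by
        have := mul_le_mul_of_nonneg_right hbc hc₂0
        linarith
    _ = _ := by rw [hc₂]; ring

end Pool.Agent.L7h8.BE
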