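import Mathlib

/-!
# Counting integral points with fractional parts in a short interval
-/

set_option autoImplicit false

namespace Pool.Agent.L7h8.BE

open Finset Complex

/-- `e(t) = exp(2 π i t)` -/
noncomputable def ee (t : ℝ) : ℂ := exp ((2 * Real.pi * t : ℝ) * I)

theorem ee_norm (t : ℝ) : ‖ee t‖ = 1 := by
  unfold ee
  exact norm_exp_ofReal_mul_I _

theorem ee_add (s t : ℝ) : ee (s + t) = ee s * ee t := by
  unfold ee
  rw [← exp_add]
  congr 1
  push_cast
  ring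

theorem ee_re (t : ℝ) : (ee t).re = Real.cos (2 * Real.pi * t) := by
  unfold ee
  rw [exp_ofReal_mul_I_re]

theorem ee_mul_nat (t : ℝ) (n : ℕ) : ee (n * t) = ee t ^ n := by
  unfold ee
  rw [← exp_nat_mul]
  congr 1
  push_cast
  ring

theorem ee_zero : ee 0 = 1 := by
  unfold ee
  simp

theorem ee_int (n : ℤ) : ee n = 1 := by
  unfold ee
  rw [Complex.exp_eq_one_iff]
  exact ⟨n, by push_cast; ring⟩

theorem ee_sub_one (t : ℝ) : 4 * |t - round t| ≤ ‖ee t - 1‖ := by
  have h0 : ee t = ee (t - round t) := by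
    conv_lhs => rw [show t = (t - round t) + (round t : ℤ) by ring]
    rw [ee_add, ee_int, mul_one]
  rw [h0]
  set x := t - round t with hx
  have hx2 : |x| ≤ 1 / 2 := abs_sub_round t
  have h1 : ‖ee x - 1‖ = 2 * |Real.sin (Real.pi * x)| := by
    unfold ee
    rw [mul_comm, norm_exp_I_mul_ofReal_sub_one, Real.norm_eq_abs, abs_mul]
    rw [show 2 * Real.pi * x / 2 = Real.pi * x by ring]
    norm_num
  rw [h1]
  have h2 : 2 * |x| ≤ |Real.sin (Real.pi * x)| := by
    have h3 : |Real.sin (Real.pi * x)| = Real.sin (Real.pi * |x|) := by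
      rcases le_total 0 x with h | h
      · rw [abs_of_nonneg h, abs_of_nonneg]
        apply Real.sin_nonneg_of_nonneg_of_le_pi
        · positivity
        · have := abs_le.1 hx2
          nlinarith [Real.pi_pos]
      · rw [abs_of_nonpos h, abs_of_nonpos]
        · rw [show Real.pi * x = -(Real.pi * -x) by ring, Real.sin_neg, neg_neg]
        · rw [show Real.pi * x = -(Real.pi * -x) by ring, Real.sin_neg, neg_nonpos]
          apply Real.sin_nonneg_of_nonneg_of_le_pi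
          · have : 0 ≤ -x := by linarith
            positivity
          · have := abs_le.1 hx2
            nlinarith [Real.pi_pos]
    rw [h3]
    have h4 := Real.mul_le_sin (x := Real.pi * |x|) (by positivity) (by nlinarith [Real.pi_pos])
    have h5 : 2 / Real.pi * (Real.pi * |x|) = 2 * |x| := by
      field_simp
    linarith
  linarith

/-- geometric sums -/
theorem geo (α : ℝ) (a : ℤ) (N : ℕ) :
    ‖∑ n ∈ Ico a (a + N), ee (α * n)‖ * (2 * |α - round α|) ≤ 1 := by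
  by_cases hz : ee α = 1
  · have h1 := ee_sub_one α
    rw [hz, sub_self, norm_zero] at h1
    have h2 : |α - round α| = 0 := le_antisymm (by linarith) (abs_nonneg _)
    rw [h2]
    simp
  · have h1 : ∑ n ∈ Ico a (a + N), ee (α * n) = ee (α * a) * ∑ j ∈ range N, ee α ^ j := by
      rw [mul_sum]
      have h2 : Ico a (a + N) = (range N).image (fun j : ℕ => a + (j : ℤ)) := by
        ext n
        rw [mem_Ico, mem_image]
        constructor
        · rintro ⟨h3, h4⟩
          refine ⟨(n - a).toNat, mem_range.2 (by omega), by omega⟩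
        · rintro ⟨j, hj, rfl⟩
          rw [mem_range] at hj
          omega
      rw [h2, sum_image (fun x _ y _ h => by
        have h3 : a + (x : ℤ) = a + (y : ℤ) := h
        omega)]
      refine sum_congr rfl fun j _ => ?_
      rw [← ee_mul_nat, ← ee_add]
      congr 1
      push_cast
      ring
    rw [h1, norm_mul, ee_norm, one_mul, geom_sum_eq hz, norm_div]
    have h3 : ‖ee α ^ N - 1‖ ≤ 2 := by
      refine (norm_sub_le _ _).trans ?_
      rw [norm_pow, ee_norm, one_pow, norm_one]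
      norm_num
    have h4 : 0 < ‖ee α - 1‖ := norm_pos_iff.2 (sub_ne_zero.2 hz)
    have h5 := ee_sub_one α
    rw [div_mul_eq_mul_div, div_le_one h4]
    have h6 := abs_nonneg (α - round α)
    nlinarith

/-- the square of the Dirichlet kernel -/
noncomputable def Fk (K : ℕ) (t : ℝ) : ℝ := ‖∑ j ∈ range K, ee (j * t)‖ ^ 2

theorem Fk_low {K : ℕ} {θ t : ℝ} (hθ : K * θ ≤ 1 / 8) (z : ℤ) (h : |t - z| ≤ θ) :
    (K : ℝ) ^ 2 / 2 ≤ Fk K t := by
  have h0 : ∀ j : ℕ, ee (j * t) = ee (j * (t - z)) := by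
    intro j
    rw [show (j : ℝ) * t = j * (t - z) + ((j * z : ℤ) : ℝ) by push_cast; ring, ee_add, ee_int,
      mul_one]
  have h1 : (K : ℝ) * (√2 / 2) ≤ (∑ j ∈ range K, ee (j * t)).re := by
    rw [re_sum]
    have h2 : ∀ j ∈ range K, √2 / 2 ≤ (ee (j * t)).re := by
      intro j hj
      rw [h0 j, ee_re, ← Real.cos_pi_div_four, ← Real.cos_abs (2 * Real.pi * _)]
      have h3 : |2 * Real.pi * (j * (t - z))| ≤ Real.pi / 4 := by
        rw [abs_mul (2 * Real.pi), abs_mul (j : ℝ), abs_of_pos (by positivity : (0 : ℝ) < 2 * Real.pi),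
          Nat.abs_cast]
        have h4 : (j : ℝ) ≤ K := by exact_mod_cast (mem_range.1 hj).le
        have h5 : (j : ℝ) * |t - z| ≤ 1 / 8 := by
          calc (j : ℝ) * |t - z| ≤ K * |t - z| := mul_le_mul_of_nonneg_right h4 (abs_nonneg _)
            _ ≤ K * θ := mul_le_mul_of_nonneg_left h (Nat.cast_nonneg _)
            _ ≤ 1 / 8 := hθ
        nlinarith [Real.pi_pos]
      refine Real.cos_le_cos_of_nonneg_of_le_pi (abs_nonneg _) ?_ h3
      nlinarith [Real.pi_pos]
    calc (K : ℝ) * (√2 / 2) = ∑ j ∈ range K, √2 / 2 := by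
          rw [sum_const, card_range, nsmul_eq_mul]
      _ ≤ _ := sum_le_sum h2
  have h2 : (∑ j ∈ range K, ee (j * t)).re ≤ ‖∑ j ∈ range K, ee (j * t)‖ := re_le_norm _
  have h3 : (0 : ℝ) ≤ (K : ℝ) * (√2 / 2) := by positivity
  unfold Fk
  have h4 : ((K : ℝ) * (√2 / 2)) ^ 2 = (K : ℝ) ^ 2 / 2 := by
    rw [mul_pow, div_pow, Real.sq_sqrt (by norm_num)]
    ring
  rw [← h4]
  exact pow_le_pow_left₀ h3 (h1.trans h2) 2

theorem Fk_nonneg (K : ℕ) (t : ℝ) : 0 ≤ Fk K t := by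
  unfold Fk
  positivity

theorem Fk_eq (K : ℕ) (t : ℝ) :
    Fk K t = ∑ j ∈ range K, ∑ l ∈ range K, (ee (((j : ℤ) - (l : ℤ) : ℤ) * t)).re := by
  have h1 : ((Fk K t : ℝ) : ℂ) = ∑ j ∈ range K, ∑ l ∈ range K, ee (((j : ℤ) - (l : ℤ) : ℤ) * t) := by
    unfold Fk
    push_cast
    rw [← Complex.mul_conj', map_sum, sum_mul_sum]
    refine sum_congr rfl fun j _ => sum_congr rfl fun l _ => ?_
    have h2 : (starRingEnd ℂ) (ee (l * t)) = ee (-(l * t)) := by
      unfold ee
      rw [← exp_conj]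
      congr 1
      rw [map_mul, conj_ofReal, conj_I]
      push_cast
      ring
    rw [h2, ← ee_add]
    congr 1
    ring
  have h2 := congrArg Complex.re h1
  rw [ofReal_re, re_sum] at h2
  rw [h2]
  refine sum_congr rfl fun j _ => ?_
  rw [re_sum]

/-- the count -/
theorem count2 (α₀ α₁ β θ : ℝ) (K : ℕ) (hK : 1 ≤ K) (hθ : K * θ ≤ 1 / 8) (a₀ a₁ : ℤ) (N₀ N₁ : ℕ)
    (S : Finset (ℤ × ℤ)) (hS : ∀ p ∈ S, p.1 ∈ Ico a₀ (a₀ + N₀) ∧ p.2 ∈ Ico a₁ (a₁ + N₁) ∧
      ∃ z : ℤ, |p.1 * α₀ + p.2 * α₁ + β - z| ≤ θ) :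
    (S.card : ℝ) * K ≤ 4 * (N₀ * N₁) ∨ ∃ k : ℤ, k ≠ 0 ∧ |k| ≤ K ∧
      2 * N₀ * |k * α₀ - round (k * α₀)| ≤ K ∧ 2 * N₁ * |k * α₁ - round (k * α₁)| ≤ K := by
  classical
  by_cases hex : ∃ k : ℤ, k ≠ 0 ∧ |k| ≤ K ∧
      2 * N₀ * |k * α₀ - round (k * α₀)| ≤ K ∧ 2 * N₁ * |k * α₁ - round (k * α₁)| ≤ K
  · exact Or.inr hex
  left
  push Not at hex
  set I₀ := Ico a₀ (a₀ + (N₀ : ℤ)) with hI₀
  set I₁ := Ico a₁ (a₁ + (N₁ : ℤ)) with hI₁
  have hc0 : I₀.card = N₀ := by rw [hI₀, Int.card_Ico]; omega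
  have hc1 : I₁.card = N₁ := by rw [hI₁, Int.card_Ico]; omega
  have hK0 : (0 : ℝ) < K := by exact_mod_cast hK
  -- the exponential sums
  have hsum : ∀ k : ℤ, k ≠ 0 → |k| ≤ K → K * ‖∑ s ∈ I₀, ∑ t ∈ I₁, ee (k * (s * α₀ + t * α₁ + β))‖ ≤
      N₀ * N₁ := by
    intro k hk0 hkK
    have h1 : ∑ s ∈ I₀, ∑ t ∈ I₁, ee (k * (s * α₀ + t * α₁ + β)) =
        ee (k * β) * ((∑ s ∈ I₀, ee (k * α₀ * s)) * ∑ t ∈ I₁, ee (k * α₁ * t)) := by
      rw [sum_mul_sum, mul_sum]
      refine sum_congr rfl fun s _ => ?_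
      rw [mul_sum]
      refine sum_congr rfl fun t _ => ?_
      rw [← ee_add, ← ee_add]
      congr 1
      ring
    rw [h1, norm_mul, ee_norm, one_mul, norm_mul]
    set s0 := ‖∑ s ∈ I₀, ee (k * α₀ * s)‖ with hs0
    set s1 := ‖∑ t ∈ I₁, ee (k * α₁ * t)‖ with hs1
    have b0 : s0 ≤ N₀ := by
      rw [hs0, ← hc0]
      refine (norm_sum_le _ _).trans ?_
      simp [ee_norm]
    have b1 : s1 ≤ N₁ := by
      rw [hs1, ← hc1]
      refine (norm_sum_le _ _).trans ?_
      simp [ee_norm]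
    have g0 : s0 * (2 * |k * α₀ - round (k * α₀)|) ≤ 1 := geo (k * α₀) a₀ N₀
    have g1 : s1 * (2 * |k * α₁ - round (k * α₁)|) ≤ 1 := geo (k * α₁) a₁ N₁
    have n0 : 0 ≤ s0 := norm_nonneg _
    have n1 : 0 ≤ s1 := norm_nonneg _
    by_cases hA : 2 * N₀ * |k * α₀ - round (k * α₀)| ≤ K
    · have hB := hex k hk0 hkK hA
      -- `K s1 ≤ N₁`
      have h2 : K * s1 ≤ N₁ := by
        set x := |k * α₁ - round (k * α₁)| with hx
        have hx0 : 0 < x := by
          rcases (abs_nonneg (k * α₁ - round (k * α₁))).lt_or_eq with h | h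
          · exact h
          · exfalso
            rw [hx, ← h] at hB
            linarith
        have h3 : K * s1 * (2 * x) ≤ N₁ * (2 * x) := by nlinarith
        exact le_of_mul_le_mul_right h3 (by positivity)
      calc K * (s0 * s1) = s0 * (K * s1) := by ring
        _ ≤ N₀ * N₁ := mul_le_mul b0 h2 (by positivity) (Nat.cast_nonneg _)
    · push Not at hA
      have h2 : K * s0 ≤ N₀ := by
        set x := |k * α₀ - round (k * α₀)| with hx
        have hx0 : 0 < x := by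
          rcases (abs_nonneg (k * α₀ - round (k * α₀))).lt_or_eq with h | h
          · exact h
          · exfalso
            rw [hx, ← h] at hA
            linarith
        have h3 : K * s0 * (2 * x) ≤ N₀ * (2 * x) := by nlinarith
        exact le_of_mul_le_mul_right h3 (by positivity)
      calc K * (s0 * s1) = (K * s0) * s1 := by ring
        _ ≤ N₀ * N₁ := mul_le_mul h2 b1 n1 (Nat.cast_nonneg _)
  -- the sum of the kernel
  have htot : ∑ s ∈ I₀, ∑ t ∈ I₁, Fk K (s * α₀ + t * α₁ + β) ≤ 2 * K * (N₀ * N₁) := by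
    have h1 : ∑ s ∈ I₀, ∑ t ∈ I₁, Fk K (s * α₀ + t * α₁ + β) =
        ∑ j ∈ range K, ∑ l ∈ range K, (∑ s ∈ I₀, ∑ t ∈ I₁,
          ee (((j : ℤ) - (l : ℤ) : ℤ) * (s * α₀ + t * α₁ + β))).re := by
      simp only [Fk_eq, re_sum]
      rw [sum_congr rfl fun s _ => sum_comm]
      rw [sum_comm]
      refine sum_congr rfl fun j _ => ?_
      rw [sum_congr rfl fun s _ => sum_comm]
      rw [sum_comm]
    rw [h1]
    have h2 : ∀ j ∈ range K, ∑ l ∈ range K, (∑ s ∈ I₀, ∑ t ∈ I₁,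
        ee (((j : ℤ) - (l : ℤ) : ℤ) * (s * α₀ + t * α₁ + β))).re ≤ 2 * (N₀ * N₁) := by
      intro j hj
      have h3 : ∀ l ∈ range K, (∑ s ∈ I₀, ∑ t ∈ I₁,
          ee (((j : ℤ) - (l : ℤ) : ℤ) * (s * α₀ + t * α₁ + β))).re ≤
          (if l = j then (N₀ : ℝ) * N₁ else 0) + (N₀ * N₁) / K := by
        intro l hl
        rw [mem_range] at hj hl
        by_cases hlj : l = j
        · rw [if_pos hlj, hlj, sub_self]
          have h4 : ∑ s ∈ I₀, ∑ t ∈ I₁, ee (((0 : ℤ) : ℝ) * (s * α₀ + t * α₁ + β)) =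
              ((N₀ * N₁ : ℝ) : ℂ) := by
            simp only [Int.cast_zero, zero_mul, ee_zero, sum_const, hc0, hc1]
            simp
          rw [h4, ofReal_re]
          have : (0 : ℝ) ≤ N₀ * N₁ / K := by positivity
          linarith
        · rw [if_neg hlj, zero_add, le_div_iff₀ hK0, mul_comm]
          refine le_trans ?_ (hsum ((j : ℤ) - l) (by omega) (by rw [abs_le]; omega))
          exact mul_le_mul_of_nonneg_left (re_le_norm _) hK0.le
      calc _ ≤ ∑ l ∈ range K, ((if l = j then (N₀ : ℝ) * N₁ else 0) + (N₀ * N₁) / K) :=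
            sum_le_sum h3
        _ = 2 * (N₀ * N₁) := by
          rw [sum_add_distrib, sum_ite_eq' , if_pos hj, sum_const, card_range, nsmul_eq_mul]
          field_simp
          ring
    calc _ ≤ ∑ j ∈ range K, 2 * ((N₀ : ℝ) * N₁) := sum_le_sum h2
      _ = 2 * K * (N₀ * N₁) := by
        rw [sum_const, card_range, nsmul_eq_mul]
        ring
  have hlow : (S.card : ℝ) * ((K : ℝ) ^ 2 / 2) ≤
      ∑ s ∈ I₀, ∑ t ∈ I₁, Fk K (s * α₀ + t * α₁ + β) := by
    rw [← sum_product']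
    calc (S.card : ℝ) * ((K : ℝ) ^ 2 / 2) = ∑ _p ∈ S, ((K : ℝ) ^ 2 / 2) := by
          rw [sum_const, nsmul_eq_mul]
      _ ≤ ∑ p ∈ S, Fk K (p.1 * α₀ + p.2 * α₁ + β) := by
          refine sum_le_sum fun p hp => ?_
          obtain ⟨_, _, z, hz⟩ := hS p hp
          exact Fk_low hθ z hz
      _ ≤ _ := by
          refine sum_le_sum_of_subset_of_nonneg ?_ fun p _ _ => Fk_nonneg _ _
          intro p hp
          rw [mem_product]
          exact ⟨(hS p hp).1, (hS p hp).2.1⟩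
  have h5 := hlow.trans htot
  have h6 : (S.card : ℝ) * K * (K / 2) ≤ 4 * (N₀ * N₁) * (K / 2) := by nlinarith
  exact le_of_mul_le_mul_right h6 (by positivity)

end Pool.Agent.L7h8.BE
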