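import Pool.Agent.L7h8.BE.Cls

/-!
# Project BE: almost all quadruples
-/

set_option autoImplicit false

namespace Pool.Agent.L7h8.BE

open Finset Filter
open Pool.Agent.N718.LB (V3 cr dt)

/-- residues -/
def rs (M : ℕ) (v : Fin 3 → ℤ) : Fin 3 → ℤ := fun i => v i % M

theorem rs_dvd (M : ℕ) (v : Fin 3 → ℤ) (i : Fin 3) : (M : ℤ) ∣ v i - rs M v i := by
  unfold rs
  exact Int.dvd_self_sub_emod

theorem rs_mem {M : ℕ} (hM : 1 ≤ M) (v : Fin 3 → ℤ) :
    rs M v ∈ Fintype.piFinset (fun _ : Fin 3 => Ico (0 : ℤ) M) := by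
  rw [Fintype.mem_piFinset]
  intro i
  have hM0 : (0 : ℤ) < M := by exact_mod_cast hM
  exact mem_Ico.2 ⟨Int.emod_nonneg _ hM0.ne', Int.emod_lt_of_pos _ hM0⟩

theorem coprime_congr {a b M : ℤ} (h : M ∣ a - b) (ha : IsCoprime a M) : IsCoprime b M := by
  obtain ⟨c, hc⟩ := h
  have : b = a + M * (-c) := by linarith
  rw [this]
  exact IsCoprime.add_mul_left_left ha (-c)

theorem cr_add_mul (w u v : Fin 3 → ℤ) (x : ℤ) (i : Fin 3) :
    cr w (fun j => u j + x * v j) i = cr w u i - x * cr v w i := by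
  unfold cr
  fin_cases i <;> simp <;> ring

theorem dt_det (v w u : Fin 3 → ℤ) : dt v (cr w u) = dt (cr v w) u := by
  unfold dt cr
  simp
  ring

theorem dt_add_mul (a u v : Fin 3 → ℤ) (x : ℤ) :
    dt a (fun j => u j + x * v j) = dt a u + x * dt a v := by
  unfold dt
  ring

theorem dt_cr_self (v w : Fin 3 → ℤ) : dt (cr v w) v = 0 := by
  unfold dt cr
  simp
  ring

theorem dt_cr_self' (v w : Fin 3 → ℤ) : dt (cr v w) w = 0 := by
  unfold dt cr
  simp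
  ring

/-- the target of the counting -/
theorem target {K K' M x H D : ℕ} (κ : ℕ) (hK : 1 ≤ K) (hx : 4 * K * (K + K') ^ 2 ≤ x)
    {u v w : Fin 3 → ℤ} (hv : ∀ i, |v i| ≤ K * H) (hw : ∀ i, |w i| ≤ K * H)
    (hwp : ∀ i, (H : ℤ) ≤ K * w i) (ha : ∀ i, (H : ℤ) ^ 2 ≤ K * |cr v w i|)
    (hu : ∀ i, |u i| ≤ K' * H) (hd : |dt (cr v w) u| ≤ D)
    (hno : ¬ ∃ y : ℤ, |(y : ℝ)| ≤ Real.log H ^ κ ∧
        ∃ P : Fin 3 → ℕ, ∀ i, (P i).Prime ∧ (u i + x * v i) + y * w i = P i) :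
    ((fun i => u i + x * v i, w) : (Fin 3 → ℤ) × (Fin 3 → ℤ)) ∈
      ExN κ M (K' + x * K) K H x (fun i => rs M u i + x * rs M v i) (rs M w) ∧
    v ∈ Th M (2 * K + K') x H D (rs M v) (fun i => u i + x * v i, w) := by
  classical
  constructor
  · unfold ExN Ex
    rw [mem_filter, mem_filter, mem_product, mem_V3, mem_V3]
    refine ⟨⟨⟨?_, ?_⟩, ?_, hwp, hno⟩, ?_⟩
    · intro i
      show |u i + x * v i| ≤ _
      refine (abs_add_le _ _).trans ?_
      rw [abs_mul, Nat.abs_cast]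
      push_cast
      have h1 := hu i
      have h2 := mul_le_mul_of_nonneg_left (hv i) (by positivity : (0 : ℤ) ≤ x)
      nlinarith
    · intro i
      push_cast
      exact hw i
    · intro i
      refine ⟨?_, rs_dvd M w i⟩
      show (M : ℤ) ∣ u i + x * v i - (rs M u i + x * rs M v i)
      have e : u i + x * v i - (rs M u i + x * rs M v i) =
        (u i - rs M u i) + x * (v i - rs M v i) := by ring
      rw [e]
      exact dvd_add (rs_dvd M u i) (Dvd.dvd.mul_left (rs_dvd M v i) _)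
    · show (x : ℤ) * H ^ 2 ≤ 2 * K * |cr w (fun i => u i + x * v i) 2|
      rw [cr_add_mul]
      have h1 : |cr w u 2| ≤ 2 * (((K + K' : ℕ) : ℤ) * H) ^ 2 := by
        refine cr_bound ?_ ?_ 2
        · intro i
          refine (hw i).trans ?_
          push_cast
          nlinarith [mul_nonneg (Int.natCast_nonneg K') (Int.natCast_nonneg H)]
        · intro i
          refine (hu i).trans ?_
          push_cast
          nlinarith [mul_nonneg (Int.natCast_nonneg K) (Int.natCast_nonneg H)]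
      have h2 : (x : ℤ) * |cr v w 2| ≤ |cr w u 2 - x * cr v w 2| + |cr w u 2| := by
        have h3 : |(x : ℤ) * cr v w 2| ≤ |cr w u 2 - x * cr v w 2| + |cr w u 2| := by
          have := abs_sub (cr w u 2) (cr w u 2 - x * cr v w 2)
          rw [sub_sub_cancel] at this
          linarith
        rw [abs_mul, Nat.abs_cast] at h3
        exact h3
      have h3 := ha 2
      have hx' : (4 : ℤ) * K * (K + K') ^ 2 ≤ x := by exact_mod_cast hx
      have h4 := mul_le_mul_of_nonneg_left h3 (by positivity : (0 : ℤ) ≤ x)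
      have h5 := mul_le_mul_of_nonneg_right hx' (by positivity : (0 : ℤ) ≤ (H : ℤ) ^ 2)
      have h6 := mul_le_mul_of_nonneg_left h1 (by positivity : (0 : ℤ) ≤ 2 * K)
      have h7 := mul_le_mul_of_nonneg_left h2 (by positivity : (0 : ℤ) ≤ 2 * K)
      push_cast at h6
      nlinarith
  · unfold Th
    rw [mem_filter, mem_V3]
    refine ⟨?_, rs_dvd M v, ?_, ?_⟩
    · intro i
      refine (hv i).trans ?_
      push_cast
      nlinarith [mul_nonneg (Int.natCast_nonneg K) (Int.natCast_nonneg H),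
        mul_nonneg (Int.natCast_nonneg K') (Int.natCast_nonneg H)]
    · intro i
      show |u i + x * v i - x * v i| ≤ _
      rw [add_sub_cancel_right]
      refine (hu i).trans ?_
      push_cast
      nlinarith [mul_nonneg (Int.natCast_nonneg K) (Int.natCast_nonneg H)]
    · show |dt v (cr w (fun i => u i + x * v i))| ≤ D
      rw [dt_det, dt_add_mul, dt_cr_self, mul_zero, add_zero]
      exact hd

theorem main_ (h1 : S_GEO) (h2 : S_RED) (h3 : S_LOCU) (h4 : S_EXC) (h5 : S_SLAB) (h6 : S_BADC) :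
    S_MAIN := by
  classical
  obtain ⟨C₁, hC₁, κ₁, hE⟩ := h4
  obtain ⟨C₂, hC₂, hCls⟩ := cls h5 h6
  refine ⟨κ₁ + 1, fun η hη => ?_⟩
  obtain ⟨K, hK, A_G, hG⟩ := h1 (η / 12) (by positivity)
  obtain ⟨K', hR⟩ := h2 K hK
  obtain ⟨X₁, hX₁⟩ : ∃ X₁ : ℕ, X₁ = 4 * K * (K + K') ^ 2 := ⟨_, rfl⟩
  have hX₁1 : 1 ≤ X₁ := by
    rw [hX₁]
    have : 0 < (K + K') ^ 2 := by positivity
    nlinarith
  obtain ⟨Ks, hKs⟩ : ∃ Ks : ℕ, Ks = 2 * K + K' := ⟨_, rfl⟩
  obtain ⟨c, hc⟩ : ∃ c : ℝ, c = C₁ * C₂ * ((K : ℝ) + K') ^ 3 * K ^ 3 * Ks ^ 3 := ⟨_, rfl⟩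
  have hc0 : 0 ≤ c := by rw [hc]; positivity
  obtain ⟨W, hW1, hW⟩ : ∃ W : ℕ, 1 ≤ W ∧ 64 * (c / W) ≤ η / 4 := by
    refine ⟨⌈256 * c / η⌉₊ + 1, by omega, ?_⟩
    have h7 : 256 * c / η ≤ ((⌈256 * c / η⌉₊ + 1 : ℕ) : ℝ) := by
      push_cast
      linarith [Nat.le_ceil (256 * c / η)]
    rw [div_le_iff₀ hη] at h7
    rw [mul_div_assoc', div_le_iff₀ (by positivity)]
    linarith
  obtain ⟨M, hMdef⟩ : ∃ M : ℕ, M = 2 * W.factorial := ⟨_, rfl⟩
  have hM1 : 1 ≤ M := by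
    rw [hMdef]; have := Nat.factorial_pos W; omega
  have hM2 : 2 ∣ M := by rw [hMdef]; exact dvd_mul_right _ _
  have hMW : ∀ p : ℕ, p.Prime → p ≤ W → p ∣ M := by
    intro p hp hpW
    rw [hMdef]
    exact Dvd.dvd.mul_left ((hp.dvd_factorial).2 hpW) 2
  have hM0 : (0 : ℝ) < M := by exact_mod_cast hM1
  have hW0 : (0 : ℝ) < W := by exact_mod_cast hW1
  -- the classes
  set G : Finset (Fin 3 → ℤ) := Fintype.piFinset (fun _ : Fin 3 => Ico (0 : ℤ) M) with hGdef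
  have hGc : G.card = M ^ 3 := by
    rw [hGdef, Fintype.card_piFinset, prod_const, card_univ, Fintype.card_fin, Int.card_Ico]
    congr 1
  let sol : (Fin 3 → ℤ) × (Fin 3 → ℤ) × (Fin 3 → ℤ) → Prop := fun g =>
    ∃ x₀ y₀ : ℤ, ∀ i, IsCoprime (g.1 i + x₀ * g.2.1 i + y₀ * g.2.2 i) (M : ℤ)
  set GG := (G ×ˢ G ×ˢ G).filter sol with hGG
  have hGGc : (GG.card : ℝ) ≤ (M : ℝ) ^ 9 := by
    have h7 : GG.card ≤ (G ×ˢ G ×ˢ G).card := card_le_card (filter_subset _ _)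
    rw [card_product, card_product, hGc] at h7
    calc (GG.card : ℝ) ≤ ((M ^ 3 * (M ^ 3 * M ^ 3) : ℕ) : ℝ) := by exact_mod_cast h7
      _ = (M : ℝ) ^ 9 := by push_cast; ring
  have hch : ∀ g ∈ GG, ∃ (x : ℕ) (C₃ : ℝ) (H₀ : ℕ), X₁ ≤ x ∧ x < X₁ + M ∧ 0 ≤ C₃ ∧
      ∀ H : ℕ, H₀ ≤ H → ∀ D : ℕ, H ^ 2 ≤ 4 * D →
      ((∑ t ∈ ExN κ₁ M (K' + x * K) K H x (fun i => g.1 i + x * g.2.1 i) g.2.2,
        (Th M Ks x H D g.2.1 t).card : ℕ) : ℝ) ≤
        c / W * ((H : ℝ) ^ 6 * D) / M ^ 9 + C₃ * (H : ℝ) ^ 4 * D := by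
    intro g hg
    obtain ⟨x₀, y₀, hco⟩ := (mem_filter.1 hg).2
    have hMz : (0 : ℤ) < M := by exact_mod_cast hM1
    obtain ⟨x, hx⟩ : ∃ x : ℕ, x = X₁ + ((x₀ - X₁) % M).toNat := ⟨_, rfl⟩
    have hr0 := Int.emod_nonneg (x₀ - X₁) hMz.ne'
    have hr1 := Int.emod_lt_of_pos (x₀ - X₁) hMz
    have hxz : (x : ℤ) = X₁ + (x₀ - X₁) % M := by
      rw [hx, Nat.cast_add, Int.toNat_of_nonneg hr0]
    have hxd : (M : ℤ) ∣ x₀ - x := by
      rw [hxz]
      have := Int.dvd_self_sub_emod (x := x₀ - X₁) (m := (M : ℤ))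
      have e : x₀ - (X₁ + (x₀ - X₁) % (M : ℤ)) = x₀ - X₁ - (x₀ - X₁) % (M : ℤ) := by ring
      rw [e]
      exact this
    have hx1 : X₁ ≤ x := by omega
    have hx2 : x < X₁ + M := by omega
    have hco' : ∀ i, IsCoprime ((fun i => g.1 i + x * g.2.1 i) i + y₀ * g.2.2 i) (M : ℤ) := by
      intro i
      refine coprime_congr ?_ (hco i)
      have e : g.1 i + x₀ * g.2.1 i + y₀ * g.2.2 i -
        ((fun i => g.1 i + x * g.2.1 i) i + y₀ * g.2.2 i) = (x₀ - x) * g.2.1 i := by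
        show g.1 i + x₀ * g.2.1 i + y₀ * g.2.2 i - ((g.1 i + x * g.2.1 i) + y₀ * g.2.2 i) = _
        ring
      rw [e]
      exact Dvd.dvd.mul_right hxd _
    have hxpos : 1 ≤ x := hX₁1.trans hx1
    have hKB : K ≤ K' + x * K := by nlinarith
    obtain ⟨H₁, hH₁⟩ := hE W M hW1 hM1 hM2 hMW (K' + x * K) K (hK.trans hKB) hK y₀
      (fun i => g.1 i + x * g.2.1 i) g.2.2 hco'
    obtain ⟨C₃, hC₃, H₂, hH₂⟩ := hCls κ₁ M x (K' + x * K) K Ks hM1 hxpos hK
      (by rw [hKs]; omega) hKB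
    refine ⟨x, C₃, H₁ + H₂, hx1, hx2, hC₃, ?_⟩
    intro H hH D hD
    have hEx := hH₁ H (by omega)
    have hSum := hH₂ H (by omega) D hD (fun i => g.1 i + x * g.2.1 i) g.2.2 g.2.1
    refine hSum.trans ?_
    have hEx' : ((Ex κ₁ M (K' + x * K) K H (fun i => g.1 i + x * g.2.1 i) g.2.2).card : ℝ) ≤
        C₁ / W * (((K' + x * K : ℕ) : ℝ) * H / M) ^ 3 * ((K : ℝ) * H / M) ^ 3 := by
      unfold Ex
      convert hEx using 2
    have hx0 : (0 : ℝ) < x := by exact_mod_cast hxpos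
    have hBx : ((K' + x * K : ℕ) : ℝ) ≤ x * ((K : ℝ) + K') := by
      push_cast
      have h8 : (1 : ℝ) ≤ x := by exact_mod_cast hxpos
      have h9 : (0 : ℝ) ≤ K' := Nat.cast_nonneg K'
      nlinarith
    have h8 : ((Ex κ₁ M (K' + x * K) K H (fun i => g.1 i + x * g.2.1 i) g.2.2).card : ℝ) *
        (C₂ * (Ks : ℝ) ^ 3 * D / ((x : ℝ) ^ 3 * (M : ℝ) ^ 3)) ≤
        (C₁ / W * ((x * ((K : ℝ) + K')) * H / M) ^ 3 * ((K : ℝ) * H / M) ^ 3) *
        (C₂ * (Ks : ℝ) ^ 3 * D / ((x : ℝ) ^ 3 * (M : ℝ) ^ 3)) := by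
      refine mul_le_mul_of_nonneg_right (hEx'.trans ?_) (by positivity)
      gcongr
    have h9 : (C₁ / W * ((x * ((K : ℝ) + K')) * H / M) ^ 3 * ((K : ℝ) * H / M) ^ 3) *
        (C₂ * (Ks : ℝ) ^ 3 * D / ((x : ℝ) ^ 3 * (M : ℝ) ^ 3)) =
        c / W * ((H : ℝ) ^ 6 * D) / M ^ 9 := by
      rw [hc]
      field_simp
    rw [h9] at h8
    linarith
  choose! xx CC HH hxx using hch
  -- total constants
  obtain ⟨Ct, hCt⟩ : ∃ Ct : ℝ, Ct = ∑ g ∈ GG, CC g := ⟨_, rfl⟩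
  have hCt0 : 0 ≤ Ct := by rw [hCt]; exact sum_nonneg fun g hg => (hxx g hg).2.2.1
  obtain ⟨Ht, hHt⟩ : ∃ Ht : ℕ, Ht = ∑ g ∈ GG, HH g := ⟨_, rfl⟩
  have hHg : ∀ g ∈ GG, HH g ≤ Ht := by
    intro g hg
    rw [hHt]
    exact single_le_sum (f := HH) (fun _ _ => Nat.zero_le _) hg
  obtain ⟨Bm, hBm⟩ : ∃ Bm : ℕ, Bm = K' + (X₁ + M) * K := ⟨_, rfl⟩
  refine ⟨A_G + Ht ^ 2 + ⌈64 * Ct / η⌉₊ + ⌈Real.exp (2 * (Bm + K) + 1)⌉₊ + 1, ?_⟩
  intro A hA D hAD hDA
  obtain ⟨H, hH⟩ : ∃ H : ℕ, H = Nat.sqrt A + 1 := ⟨_, rfl⟩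
  have hA1 : 1 ≤ A := by omega
  have hH1 : A ≤ H ^ 2 := by
    rw [hH, sq]; exact (Nat.lt_succ_sqrt A).le
  have hsq : Nat.sqrt A * Nat.sqrt A ≤ A := Nat.sqrt_le A
  have hsq1 : 1 ≤ Nat.sqrt A := Nat.le_sqrt.2 (by omega)
  have hH2 : H ^ 2 ≤ 4 * A := by
    rw [hH]; nlinarith
  have hHHt : Ht ≤ H := by
    have : Ht ^ 2 ≤ A := by omega
    have h7 : Ht ≤ Nat.sqrt A := Nat.le_sqrt'.2 this
    omega
  have hHone : 1 ≤ H := by omega
  have hHD : H ^ 2 ≤ 4 * D := hH2.trans (by omega)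
  have hD1 : 1 ≤ D := hA1.trans hAD
  have hA0 : (0 : ℝ) < A := by exact_mod_cast hA1
  have hD0 : (0 : ℝ) < D := by exact_mod_cast hD1
  have hH0 : (0 : ℝ) < H := by exact_mod_cast hHone
  -- logarithm
  have hlogA : 2 * ((Bm : ℝ) + K) + 1 ≤ Real.log A := by
    rw [Real.le_log_iff_exp_le hA0]
    refine (Nat.le_ceil _).trans ?_
    exact_mod_cast (by omega : ⌈Real.exp (2 * (Bm + K) + 1)⌉₊ ≤ A)
  have hHA : (H : ℝ) ≤ 2 * (A : ℝ) ^ (1 / 2 : ℝ) := by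
    rw [← Real.sqrt_eq_rpow]
    have h7 : (H : ℝ) ^ 2 ≤ 4 * A := by exact_mod_cast hH2
    have h8 : (H : ℝ) ≤ √(4 * A) := Real.le_sqrt_of_sq_le h7
    rw [Real.sqrt_mul (by norm_num), show (4 : ℝ) = 2 ^ 2 by norm_num,
      Real.sqrt_sq (by norm_num)] at h8
    exact h8
  have hlogH : Real.log H ≤ Real.log A := by
    apply Real.log_le_log hH0
    have : H ≤ A := by
      rw [hH]
      have h7 : Nat.sqrt A < A := Nat.sqrt_lt_self (by
        by_contra hc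
        have : A = 1 := by omega
        rw [this, Nat.cast_one, Real.log_one] at hlogA
        have : (0 : ℝ) ≤ (Bm : ℝ) + K := by positivity
        linarith)
      omega
    exact_mod_cast this
  have hlogH0 : 0 ≤ Real.log H := Real.log_natCast_nonneg H
  -- the two parts
  set S := (V3 A ×ˢ Icc (-(D : ℤ)) D).filter (fun t => Adq t.1 t.2 ∧
      ¬ PSd ((A : ℝ) ^ (1 / 2 : ℝ) * Real.log A ^ (κ₁ + 1)) t.1 t.2) with hSdef
  set T := (V3 A).filter (fun a => (∀ i, a i ≠ 0) ∧ ¬ (∀ i, 0 < a i) ∧ ¬ (∀ i, a i < 0) ∧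
      (∀ p : ℕ, p.Prime → ¬ ∀ i, (p : ℤ) ∣ a i) ∧ ¬ Gd K H a) with hTdef
  have hT : (T.card : ℝ) ≤ η / 12 * (A : ℝ) ^ 3 := by
    have := hG A (by omega) H hH1 hH2
    rw [hTdef]
    convert this using 2
  let Tg : Finset (Σ _g : (Fin 3 → ℤ) × (Fin 3 → ℤ) × (Fin 3 → ℤ),
      Σ _t : (Fin 3 → ℤ) × (Fin 3 → ℤ), (Fin 3 → ℤ)) :=
    GG.sigma (fun g => (ExN κ₁ M (K' + xx g * K) K H (xx g)
      (fun i => g.1 i + xx g * g.2.1 i) g.2.2).sigma (fun t => Th M Ks (xx g) H D g.2.1 t))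
  let rec_ : (Σ _g : (Fin 3 → ℤ) × (Fin 3 → ℤ) × (Fin 3 → ℤ),
      Σ _t : (Fin 3 → ℤ) × (Fin 3 → ℤ), (Fin 3 → ℤ)) → (Fin 3 → ℤ) × ℤ :=
    fun z => (cr z.2.2 z.2.1.2, dt (cr z.2.2 z.2.1.2) z.2.1.1)
  have hsub : S ⊆ (T ×ˢ Icc (-(D : ℤ)) D) ∪ Tg.image rec_ := by
    intro p hp
    rw [hSdef, mem_filter, mem_product] at hp
    obtain ⟨⟨hp1, hp2⟩, hadq, hnps⟩ := hp
    by_cases hpT : p.1 ∈ T
    · exact mem_union_left _ (mem_product.2 ⟨hpT, hp2⟩)
    · apply mem_union_right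
      have hGd : Gd K H p.1 := by
        by_contra hc
        exact hpT (mem_filter.2 ⟨hp1, hadq.1, hadq.2.1, hadq.2.2.1, hadq.2.2.2.2.1, hc⟩)
      obtain ⟨ha, v, w, hvw, hv, hw, hwp⟩ := hGd
      have hdD : |p.2| ≤ (D : ℤ) := abs_le.2 (mem_Icc.1 hp2)
      have hD3 : (D : ℤ) ≤ (H : ℤ) ^ 3 := by
        have h7 : D ^ 2 ≤ (H ^ 3) ^ 2 := by
          calc D ^ 2 ≤ A ^ 3 := hDA
            _ ≤ (H ^ 2) ^ 3 := Nat.pow_le_pow_left hH1 3
            _ = (H ^ 3) ^ 2 := by ring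
        have h8 : D ≤ H ^ 3 := by
          by_contra hc
          push Not at hc
          have := Nat.pow_lt_pow_left hc (n := 2) (by norm_num)
          omega
        exact_mod_cast h8
      rw [← hvw] at ha hadq
      obtain ⟨u, hud, hub⟩ := hR H hHone v w hv hw ha hadq.2.2.2.2.1 p.2 (hdD.trans hD3)
      have hadq' : Adq (cr v w) (dt (cr v w) u) := by rw [hud]; exact hadq
      obtain ⟨x₀, y₀, hco⟩ := h3 M hM1 u v w hadq'
      have hgG : ((rs M u, rs M v, rs M w) :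
          (Fin 3 → ℤ) × (Fin 3 → ℤ) × (Fin 3 → ℤ)) ∈ GG := by
        rw [hGG, mem_filter, mem_product, mem_product]
        refine ⟨⟨rs_mem hM1 u, rs_mem hM1 v, rs_mem hM1 w⟩, x₀, y₀, fun i => ?_⟩
        refine coprime_congr ?_ (hco i)
        show (M : ℤ) ∣ u i + x₀ * v i + y₀ * w i - (rs M u i + x₀ * rs M v i + y₀ * rs M w i)
        have e : u i + x₀ * v i + y₀ * w i - (rs M u i + x₀ * rs M v i + y₀ * rs M w i) =
          (u i - rs M u i) + x₀ * (v i - rs M v i) + y₀ * (w i - rs M w i) := by ring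
        rw [e]
        exact dvd_add (dvd_add (rs_dvd M u i) (Dvd.dvd.mul_left (rs_dvd M v i) _))
          (Dvd.dvd.mul_left (rs_dvd M w i) _)
      obtain ⟨g, hg⟩ : ∃ g : (Fin 3 → ℤ) × (Fin 3 → ℤ) × (Fin 3 → ℤ),
        g = (rs M u, rs M v, rs M w) := ⟨_, rfl⟩
      rw [← hg] at hgG
      obtain ⟨hx1, hx2, _, _⟩ := hxx g hgG
      obtain ⟨x, hx⟩ : ∃ x : ℕ, x = xx g := ⟨_, rfl⟩
      have hno : ¬ ∃ y : ℤ, |(y : ℝ)| ≤ Real.log H ^ κ₁ ∧
          ∃ P : Fin 3 → ℕ, ∀ i, (P i).Prime ∧ (u i + x * v i) + y * w i = P i := by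
        rintro ⟨y, hy, P, hP⟩
        apply hnps
        refine ⟨P, fun i => ⟨(hP i).1, ?_⟩, ?_⟩
        · have h7 : (P i : ℝ) = (u i + x * v i) + y * w i := by
            have := (hP i).2
            exact_mod_cast this.symm
          have h8 : |(u i : ℝ)| ≤ K' * H := by exact_mod_cast hub i
          have h9 : |(v i : ℝ)| ≤ K * H := by exact_mod_cast hv i
          have h10 : |(w i : ℝ)| ≤ K * H := by exact_mod_cast hw i
          have hxM : (x : ℝ) ≤ X₁ + M := by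
            rw [hx]
            exact_mod_cast hx2.le
          have h11 : (P i : ℝ) ≤ (Bm : ℝ) * H + Real.log H ^ κ₁ * (K * H) := by
            rw [h7]
            calc (u i : ℝ) + x * v i + y * w i ≤ |(u i : ℝ)| + x * |(v i : ℝ)| +
                |(y : ℝ)| * |(w i : ℝ)| := by
                  rw [← abs_mul]
                  have a1 := le_abs_self (u i : ℝ)
                  have a2 := mul_le_mul_of_nonneg_left (le_abs_self (v i : ℝ))
                    (Nat.cast_nonneg x : (0 : ℝ) ≤ x)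
                  have a3 := le_abs_self ((y : ℝ) * w i)
                  linarith
              _ ≤ K' * H + (X₁ + M) * (K * H) + Real.log H ^ κ₁ * (K * H) := by
                  gcongr
              _ = (Bm : ℝ) * H + Real.log H ^ κ₁ * (K * H) := by
                  rw [hBm]; push_cast; ring
          have hl1 : 1 ≤ Real.log A := by
            have : (0 : ℝ) ≤ (Bm : ℝ) + K := by positivity
            linarith
          have h12 : (1 : ℝ) ≤ Real.log A ^ κ₁ := one_le_pow₀ hl1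
          have h13 : Real.log H ^ κ₁ ≤ Real.log A ^ κ₁ := pow_le_pow_left₀ hlogH0 hlogH _
          calc (P i : ℝ) ≤ (Bm : ℝ) * H + Real.log H ^ κ₁ * (K * H) := h11
            _ ≤ (Bm : ℝ) * H * Real.log A ^ κ₁ + Real.log A ^ κ₁ * (K * H) := by
                have a1 : (Bm : ℝ) * H ≤ (Bm : ℝ) * H * Real.log A ^ κ₁ :=
                  le_mul_of_one_le_right (by positivity) h12
                have a2 := mul_le_mul_of_nonneg_right h13 (by positivity : (0 : ℝ) ≤ K * H)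
                linarith
            _ = ((Bm : ℝ) + K) * Real.log A ^ κ₁ * H := by ring
            _ ≤ ((Bm : ℝ) + K) * Real.log A ^ κ₁ * (2 * (A : ℝ) ^ (1 / 2 : ℝ)) :=
                mul_le_mul_of_nonneg_left hHA (by positivity)
            _ = (2 * ((Bm : ℝ) + K)) * (Real.log A ^ κ₁ * (A : ℝ) ^ (1 / 2 : ℝ)) := by ring
            _ ≤ Real.log A * (Real.log A ^ κ₁ * (A : ℝ) ^ (1 / 2 : ℝ)) := by
                apply mul_le_mul_of_nonneg_right _ (by positivity)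
                linarith
            _ = (A : ℝ) ^ (1 / 2 : ℝ) * Real.log A ^ (κ₁ + 1) := by ring
        · have h7 : dt (cr v w) (fun i => (P i : ℤ)) = p.2 := by
            have h8 : (fun i => (P i : ℤ)) = fun i => (fun i => u i + x * v i) i + y * w i := by
              funext i
              exact ((hP i).2).symm
            rw [h8, dt_add_mul, dt_add_mul, dt_cr_self, dt_cr_self', mul_zero, mul_zero,
              add_zero, add_zero, hud]
          rw [← hvw]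
          exact h7
      have htg := target (M := M) (D := D) (x := x) κ₁ hK (by rw [hx, ← hX₁]; exact hx1) hv hw hwp ha
        hub (by rw [hud]; exact hdD) hno
      rw [mem_image]
      refine ⟨⟨g, ⟨(fun i => u i + x * v i, w), v⟩⟩, ?_, ?_⟩
      · show _ ∈ GG.sigma _
        rw [mem_sigma, mem_sigma]
        refine ⟨hgG, ?_, ?_⟩
        · show ((fun i => u i + x * v i, w) : (Fin 3 → ℤ) × (Fin 3 → ℤ)) ∈
            ExN κ₁ M (K' + xx g * K) K H (xx g) (fun i => g.1 i + xx g * g.2.1 i) g.2.2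
          rw [← hx, hg]
          exact htg.1
        · show v ∈ Th M Ks (xx g) H D g.2.1 (fun i => u i + x * v i, w)
          rw [← hx, hg, hKs]
          exact htg.2
      · show (cr v w, dt (cr v w) (fun i => u i + x * v i)) = p
        rw [dt_add_mul, dt_cr_self, mul_zero, add_zero, hud, hvw]
  have hTg : (Tg.card : ℝ) ≤ c / W * ((H : ℝ) ^ 6 * D) + Ct * (H : ℝ) ^ 4 * D := by
    have h7 : Tg.card = ∑ g ∈ GG, ∑ t ∈ ExN κ₁ M (K' + xx g * K) K H (xx g)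
      (fun i => g.1 i + xx g * g.2.1 i) g.2.2, (Th M Ks (xx g) H D g.2.1 t).card := by
      show (GG.sigma _).card = _
      rw [card_sigma]
      refine sum_congr rfl fun g _ => ?_
      rw [card_sigma]
    rw [h7, Nat.cast_sum]
    have h8 : ∀ g ∈ GG, ((∑ t ∈ ExN κ₁ M (K' + xx g * K) K H (xx g)
      (fun i => g.1 i + xx g * g.2.1 i) g.2.2, (Th M Ks (xx g) H D g.2.1 t).card : ℕ) : ℝ) ≤
      c / W * ((H : ℝ) ^ 6 * D) / M ^ 9 + CC g * (H : ℝ) ^ 4 * D := fun g hg =>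
        (hxx g hg).2.2.2 H ((hHg g hg).trans hHHt) D hHD
    calc _ ≤ ∑ g ∈ GG, (c / W * ((H : ℝ) ^ 6 * D) / M ^ 9 + CC g * (H : ℝ) ^ 4 * D) :=
          sum_le_sum h8
      _ = GG.card * (c / W * ((H : ℝ) ^ 6 * D) / M ^ 9) + Ct * (H : ℝ) ^ 4 * D := by
          rw [sum_add_distrib, sum_const, nsmul_eq_mul, hCt, sum_mul, sum_mul]
      _ ≤ (M : ℝ) ^ 9 * (c / W * ((H : ℝ) ^ 6 * D) / M ^ 9) + Ct * (H : ℝ) ^ 4 * D := by
          have := mul_le_mul_of_nonneg_right hGGc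
            (by positivity : (0 : ℝ) ≤ c / W * ((H : ℝ) ^ 6 * D) / M ^ 9)
          linarith
      _ = _ := by
          field_simp
  have hH6 : (H : ℝ) ^ 6 ≤ 64 * (A : ℝ) ^ 3 := by
    have h7 : (H : ℝ) ^ 2 ≤ 4 * A := by exact_mod_cast hH2
    calc (H : ℝ) ^ 6 = ((H : ℝ) ^ 2) ^ 3 := by ring
      _ ≤ (4 * (A : ℝ)) ^ 3 := pow_le_pow_left₀ (by positivity) h7 3
      _ = _ := by ring
  have hH4 : (H : ℝ) ^ 4 ≤ 16 * (A : ℝ) ^ 2 := by
    have h7 : (H : ℝ) ^ 2 ≤ 4 * A := by exact_mod_cast hH2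
    calc (H : ℝ) ^ 4 = ((H : ℝ) ^ 2) ^ 2 := by ring
      _ ≤ (4 * (A : ℝ)) ^ 2 := pow_le_pow_left₀ (by positivity) h7 2
      _ = _ := by ring
  have hAct : 64 * Ct ≤ η * A := by
    have h7 : 64 * Ct / η ≤ A := by
      refine (Nat.le_ceil _).trans ?_
      exact_mod_cast (by omega : ⌈64 * Ct / η⌉₊ ≤ A)
    rw [div_le_iff₀ hη] at h7
    linarith
  have hpart2 : (Tg.card : ℝ) ≤ η / 2 * ((A : ℝ) ^ 3 * D) := by
    have h7 : c / W * ((H : ℝ) ^ 6 * D) ≤ η / 4 * ((A : ℝ) ^ 3 * D) := by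
      calc c / W * ((H : ℝ) ^ 6 * D) ≤ c / W * ((64 * (A : ℝ) ^ 3) * D) := by gcongr
        _ = (64 * (c / W)) * ((A : ℝ) ^ 3 * D) := by ring
        _ ≤ _ := mul_le_mul_of_nonneg_right hW (by positivity)
    have h8 : Ct * (H : ℝ) ^ 4 * D ≤ η / 4 * ((A : ℝ) ^ 3 * D) := by
      calc Ct * (H : ℝ) ^ 4 * D ≤ Ct * (16 * (A : ℝ) ^ 2) * D := by gcongr
        _ = (64 * Ct) * ((A : ℝ) ^ 2 * D) / 4 := by ring
        _ ≤ (η * A) * ((A : ℝ) ^ 2 * D) / 4 := by gcongr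
        _ = _ := by ring
    linarith
  have hpart1 : ((T ×ˢ Icc (-(D : ℤ)) D).card : ℝ) ≤ η / 4 * ((A : ℝ) ^ 3 * D) := by
    rw [card_product, Int.card_Icc]
    have h7 : ((D : ℤ) + 1 - -(D : ℤ)).toNat = 2 * D + 1 := by omega
    rw [h7]
    push_cast
    have h8 : (2 : ℝ) * D + 1 ≤ 3 * D := by
      have : (1 : ℝ) ≤ D := by exact_mod_cast hD1
      linarith
    calc (T.card : ℝ) * (2 * D + 1) ≤ (η / 12 * (A : ℝ) ^ 3) * (3 * D) := by
          apply mul_le_mul hT h8 (by positivity) (by positivity)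
      _ = _ := by ring
  have hfin : (S.card : ℝ) ≤ η * ((A : ℝ) ^ 3 * D) := by
    have h7 : S.card ≤ (T ×ˢ Icc (-(D : ℤ)) D).card + Tg.card :=
      (card_le_card hsub).trans ((card_union_le _ _).trans (Nat.add_le_add_left card_image_le _))
    have h8 : (S.card : ℝ) ≤ ((T ×ˢ Icc (-(D : ℤ)) D).card : ℝ) + Tg.card := by exact_mod_cast h7
    have h9 : (0 : ℝ) ≤ η * ((A : ℝ) ^ 3 * D) := by positivity
    linarith
  rw [hSdef] at hfin
  convert hfin using 2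

end Pool.Agent.L7h8.BE
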