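import Pool.Agent.L7h8.BE.Stm
import Pool.Agent.L7h8.BE.Fej

/-!
# Integral points in a slab
-/

set_option autoImplicit false

namespace Pool.Agent.L7h8.BE

open Finset
open Pool.Agent.N718.LB (V3 cr dt)

theorem dt_cr_left (w u : Fin 3 → ℤ) : dt w (cr w u) = 0 := by
  unfold dt cr
  simp
  ring

theorem dt_cr_right (w u : Fin 3 → ℤ) : dt u (cr w u) = 0 := by
  unfold dt cr
  simp
  ring

theorem cr_bound {w u : Fin 3 → ℤ} {B : ℤ} (hw : ∀ i, |w i| ≤ B) (hu : ∀ i, |u i| ≤ B) (i : Fin 3) :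
    |cr w u i| ≤ 2 * B ^ 2 := by
  have hB : 0 ≤ B := (abs_nonneg _).trans (hw 0)
  have key : ∀ a b c d : Fin 3, |w a * u b - w c * u d| ≤ 2 * B ^ 2 := by
    intro a b c d
    have h1 : |w a * u b| ≤ B ^ 2 := by
      rw [abs_mul, sq]; exact mul_le_mul (hw a) (hu b) (abs_nonneg _) hB
    have h2 : |w c * u d| ≤ B ^ 2 := by
      rw [abs_mul, sq]; exact mul_le_mul (hw c) (hu d) (abs_nonneg _) hB
    have h3 := abs_sub (w a * u b) (w c * u d)
    linarith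
  fin_cases i
  · exact key 1 2 2 1
  · exact key 2 0 0 2
  · exact key 0 1 1 0

/-- the interval for one coordinate -/
theorem ivl {K H x M : ℕ} (hx : 1 ≤ x) (hM : 1 ≤ M) {u v γ t : ℤ} (h : |u - x * v| ≤ K * H)
    (hv : v = γ + M * t) {n : ℕ} (hn : 2 * ((K : ℝ) * H / (x * M)) + 2 ≤ n) :
    t ∈ Ico ⌊(((u : ℝ) - K * H) / x - γ) / M⌋ (⌊(((u : ℝ) - K * H) / x - γ) / M⌋ + (n : ℤ)) := by
  have hx0 : (0 : ℝ) < x := by exact_mod_cast hx
  have hM0 : (0 : ℝ) < M := by exact_mod_cast hM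
  have h1 : |(u : ℝ) - x * v| ≤ K * H := by exact_mod_cast h
  rw [abs_le] at h1
  have hvr : (v : ℝ) = γ + M * t := by rw [hv]; push_cast; ring
  set r : ℝ := (((u : ℝ) - K * H) / x - γ) / M with hr
  have h2 : r ≤ t := by
    rw [hr, div_le_iff₀ hM0, sub_le_iff_le_add, div_le_iff₀ hx0]
    rw [hvr] at h1
    nlinarith [h1.2]
  have h3 : (t : ℝ) ≤ r + 2 * ((K : ℝ) * H / (x * M)) := by
    have e : r + 2 * ((K : ℝ) * H / (x * M)) = (((u : ℝ) + K * H) / x - γ) / M := by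
      rw [hr]; field_simp; ring
    rw [e, le_div_iff₀ hM0, le_sub_iff_add_le, le_div_iff₀ hx0]
    rw [hvr] at h1
    nlinarith [h1.1]
  rw [mem_Ico]
  constructor
  · exact Int.floor_le_iff.2 (by linarith [Int.lt_floor_add_one r]) |>.trans le_rfl
  · have h4 := Int.lt_floor_add_one r
    have h5 : (t : ℝ) < ⌊r⌋ + n := by linarith
    exact_mod_cast h5

/-- few integers in a short interval -/
theorem cnt_ivl (S : Finset ℤ) (c θ : ℝ) (hθ : 0 ≤ θ) (h : ∀ t ∈ S, |(t : ℝ) + c| ≤ θ) :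
    (S.card : ℝ) ≤ 2 * θ + 1 := by
  have h1 : S ⊆ Icc ⌈-c - θ⌉ ⌊-c + θ⌋ := by
    intro t ht
    have := abs_le.1 (h t ht)
    rw [mem_Icc, Int.ceil_le, Int.le_floor]
    constructor <;> linarith
  have h2 := card_le_card h1
  rw [Int.card_Icc] at h2
  have h3 : (S.card : ℝ) ≤ ((⌊-c + θ⌋ + 1 - ⌈-c - θ⌉).toNat : ℝ) := by exact_mod_cast h2
  refine h3.trans ?_
  have h4 : (((⌊-c + θ⌋ + 1 - ⌈-c - θ⌉).toNat : ℤ) : ℝ) ≤ 2 * θ + 1 := by
    rw [Int.toNat_eq_max]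
    push_cast
    apply max_le
    · have a1 := Int.floor_le (-c + θ)
      have a2 := Int.le_ceil (-c - θ)
      linarith
    · linarith
  exact_mod_cast h4

open Classical in
theorem slab_core (K M x K₁ : ℕ) (hK : 1 ≤ K) (hM : 1 ≤ M) (hx : 1 ≤ x) {H : ℕ}
    (hH : x * M ≤ H) (hH1 : 1 ≤ H) {D : ℕ} (hD : H ^ 2 ≤ 4 * D) {u w : Fin 3 → ℤ}
    (hu : ∀ i, |u i| ≤ K₁ * H) (hw : ∀ i, |w i| ≤ K₁ * H)
    (hN : (x : ℤ) * H ^ 2 ≤ K * |cr w u 2|) (γ : Fin 3 → ℤ) (S : Finset (Fin 3 → ℤ))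
    (hS : ∀ v ∈ S, (∀ i, (M : ℤ) ∣ v i - γ i) ∧ (∀ i, |u i - x * v i| ≤ K * H) ∧
      |dt v (cr w u)| ≤ D) :
    (S.card : ℝ) ≤ 1600 * (K : ℝ) ^ 3 * D / ((x : ℝ) ^ 3 * (M : ℝ) ^ 3) ∨
    ∃ h : Fin 3 → ℤ, h ≠ 0 ∧
      (∀ i, |h i| ≤ ((M * K₁ ^ 2 * (2 * K₁ ^ 2 * K) + 1 + K₁ * (M * K₁ ^ 2) * x * M + M * K₁ ^ 2 : ℕ) : ℤ)) ∧
      |dt w h| ≤ ((M * K₁ ^ 2 * (2 * K₁ ^ 2 * K) + 1 + K₁ * (M * K₁ ^ 2) * x * M + M * K₁ ^ 2 : ℕ) : ℤ) ∧
      |dt u h| ≤ ((M * K₁ ^ 2 * (2 * K₁ ^ 2 * K) + 1 + K₁ * (M * K₁ ^ 2) * x * M + M * K₁ ^ 2 : ℕ) : ℤ) := by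
  set N := cr w u with hNdef
  have hK0 : (0 : ℝ) < K := by exact_mod_cast hK
  have hM0 : (0 : ℝ) < M := by exact_mod_cast hM
  have hx0 : (0 : ℝ) < x := by exact_mod_cast hx
  have hH0 : (0 : ℝ) < H := by exact_mod_cast hH1
  have hN' : (x : ℝ) * H ^ 2 ≤ K * |(N 2 : ℝ)| := by exact_mod_cast hN
  have hNpos : (0 : ℝ) < |(N 2 : ℝ)| := by
    have : (0 : ℝ) < K * |(N 2 : ℝ)| := lt_of_lt_of_le (by positivity) hN'
    rcases (abs_nonneg (N 2 : ℝ)).lt_or_eq with h | h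
    · exact h
    · rw [← h, mul_zero] at this
      exact absurd this (lt_irrefl _)
  have hN0 : (N 2 : ℝ) ≠ 0 := abs_pos.1 hNpos
  have hD' : (H : ℝ) ^ 2 ≤ 4 * D := by exact_mod_cast hD
  have hD0 : (0 : ℝ) < D := by nlinarith [sq_pos_of_pos hH0]
  obtain ⟨α₀, hα₀⟩ : ∃ α₀ : ℝ, α₀ = (N 0 : ℝ) / N 2 := ⟨_, rfl⟩
  obtain ⟨α₁, hα₁⟩ : ∃ α₁ : ℝ, α₁ = (N 1 : ℝ) / N 2 := ⟨_, rfl⟩
  obtain ⟨β, hβ⟩ : ∃ β : ℝ, β = ((γ 0 : ℝ) * N 0 + γ 1 * N 1 + γ 2 * N 2) / (M * N 2) := ⟨_, rfl⟩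
  obtain ⟨θ, hθ⟩ : ∃ θ : ℝ, θ = (D : ℝ) / (M * |(N 2 : ℝ)|) := ⟨_, rfl⟩
  have hθ0 : 0 < θ := by rw [hθ]; positivity
  obtain ⟨L, hL⟩ : ∃ L : ℝ, L = (K : ℝ) * H / (x * M) := ⟨_, rfl⟩
  have hL1 : 1 ≤ L := by
    rw [hL, le_div_iff₀ (by positivity), one_mul]
    have h1 : (x : ℝ) * M ≤ H := by exact_mod_cast hH
    have h2 : (1 : ℝ) ≤ K := by exact_mod_cast hK
    nlinarith
  obtain ⟨n, hn⟩ : ∃ n : ℕ, n = ⌈2 * L⌉₊ + 2 := ⟨_, rfl⟩
  have hn1 : 2 * L + 2 ≤ n := by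
    rw [hn]; push_cast
    linarith [Nat.le_ceil (2 * L)]
  have hn2 : (n : ℝ) ≤ 5 * L := by
    rw [hn]; push_cast
    have := Nat.ceil_lt_add_one (by linarith : 0 ≤ 2 * L)
    linarith
  have hLθ : L ^ 2 * θ ≤ (K : ℝ) ^ 3 * D / ((x : ℝ) ^ 3 * (M : ℝ) ^ 3) := by
    have h1 : θ ≤ (D : ℝ) * K / (M * (x * H ^ 2)) := by
      rw [hθ, div_le_div_iff₀ (by positivity) (by positivity)]
      have h2 := mul_le_mul_of_nonneg_left hN' (by positivity : (0 : ℝ) ≤ D * M)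
      nlinarith
    calc L ^ 2 * θ ≤ L ^ 2 * ((D : ℝ) * K / (M * (x * H ^ 2))) :=
          mul_le_mul_of_nonneg_left h1 (by positivity)
      _ = (K : ℝ) ^ 3 * D / ((x : ℝ) ^ 3 * (M : ℝ) ^ 3) := by
          rw [hL]; field_simp
  -- coordinates
  choose! t ht using fun v hv i => (hS v hv).1 i
  have ht' : ∀ v ∈ S, ∀ i, v i = γ i + M * t v i := by
    intro v hv i
    have := ht v hv i
    linarith
  obtain ⟨a, ha⟩ : ∃ a : Fin 3 → ℤ, a = fun i => ⌊(((u i : ℝ) - K * H) / x - γ i) / M⌋ := ⟨_, rfl⟩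
  have hIco : ∀ v ∈ S, ∀ i, t v i ∈ Ico (a i) (a i + (n : ℤ)) := by
    intro v hv i
    rw [ha]
    exact ivl hx hM ((hS v hv).2.1 i) (ht' v hv i) (by rw [← hL]; exact hn1)
  have hslab : ∀ v ∈ S, |((t v 0 : ℤ) : ℝ) * α₀ + ((t v 1 : ℤ) : ℝ) * α₁ + β + ((t v 2 : ℤ) : ℝ)| ≤ θ := by
    intro v hv
    have h1 := (hS v hv).2.2
    have h2 : |(dt v N : ℝ)| ≤ D := by exact_mod_cast h1
    have h3 : ((t v 0 : ℤ) : ℝ) * α₀ + ((t v 1 : ℤ) : ℝ) * α₁ + β + ((t v 2 : ℤ) : ℝ) =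
        (dt v N : ℝ) / (M * N 2) := by
      unfold dt
      push_cast
      rw [hα₀, hα₁, hβ, ht' v hv 0, ht' v hv 1, ht' v hv 2]
      push_cast
      field_simp
      ring
    rw [h3, abs_div, abs_mul, Nat.abs_cast, hθ]
    exact div_le_div_of_nonneg_right h2 (by positivity)
  have hinj : ∀ v ∈ S, ∀ v' ∈ S, (∀ i, t v i = t v' i) → v = v' := by
    intro v hv v' hv' h
    funext i
    rw [ht' v hv i, ht' v' hv' i, h i]
  by_cases hA : 1 / 16 ≤ θ
  · -- thick slab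
    left
    have h1 : (S.card : ℝ) ≤ ((Ico (a 0) (a 0 + (n : ℤ)) ×ˢ Ico (a 1) (a 1 + (n : ℤ))).card : ℝ) *
        (2 * θ + 1) := by
      have h2 : S.card = ∑ p ∈ Ico (a 0) (a 0 + (n : ℤ)) ×ˢ Ico (a 1) (a 1 + (n : ℤ)),
          (S.filter (fun v => (t v 0, t v 1) = p)).card :=
        card_eq_sum_card_fiberwise (fun v hv => mem_coe.2 (mem_product.2
          ⟨hIco v hv 0, hIco v hv 1⟩))
      rw [h2]
      push_cast
      rw [← nsmul_eq_mul, ← sum_const]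
      refine sum_le_sum fun p _ => ?_
      have h3 : (S.filter (fun v => (t v 0, t v 1) = p)).card =
          ((S.filter (fun v => (t v 0, t v 1) = p)).image (fun v => t v 2)).card := by
        rw [card_image_of_injOn]
        intro v hv v' hv' h
        rw [mem_coe, mem_filter] at hv hv'
        have h4 := hv.2.trans hv'.2.symm
        rw [Prod.mk.injEq] at h4
        refine hinj v hv.1 v' hv'.1 fun i => ?_
        fin_cases i
        · exact h4.1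
        · exact h4.2
        · exact h
      rw [h3]
      refine cnt_ivl _ ((p.1 : ℝ) * α₀ + p.2 * α₁ + β) θ hθ0.le ?_
      intro s hs
      obtain ⟨v, hv, rfl⟩ := mem_image.1 hs
      rw [mem_filter] at hv
      have h4 := hslab v hv.1
      have h5 : (t v 0 : ℤ) = p.1 := congrArg Prod.fst hv.2
      have h6 : (t v 1 : ℤ) = p.2 := congrArg Prod.snd hv.2
      rw [h5, h6] at h4
      rw [add_comm]
      exact h4
    rw [card_product, Int.card_Ico, Int.card_Ico] at h1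
    have h7 : ((((a 0 + (n : ℤ)) - a 0).toNat * ((a 1 + (n : ℤ)) - a 1).toNat : ℕ) : ℝ) = (n : ℝ) ^ 2 := by
      have e0 : ((a 0 + (n : ℤ)) - a 0).toNat = n := by omega
      have e1 : ((a 1 + (n : ℤ)) - a 1).toNat = n := by omega
      rw [e0, e1]
      push_cast
      ring
    rw [h7] at h1
    have h8 : (n : ℝ) ^ 2 ≤ 25 * L ^ 2 := by
      have : (0 : ℝ) ≤ n := Nat.cast_nonneg n
      nlinarith
    have h9 : (S.card : ℝ) ≤ 1600 * (L ^ 2 * θ) := by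
      calc (S.card : ℝ) ≤ (n : ℝ) ^ 2 * (2 * θ + 1) := h1
        _ ≤ (25 * L ^ 2) * (18 * θ) := by
            apply mul_le_mul h8 (by linarith) (by linarith) (by positivity)
        _ ≤ 1600 * (L ^ 2 * θ) := by nlinarith [mul_nonneg (sq_nonneg L) hθ0.le]
    refine h9.trans ?_
    calc 1600 * (L ^ 2 * θ) ≤ 1600 * ((K : ℝ) ^ 3 * D / ((x : ℝ) ^ 3 * (M : ℝ) ^ 3)) := by
          exact mul_le_mul_of_nonneg_left hLθ (by norm_num)
      _ = _ := by ring
  · -- thin slab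
    push Not at hA
    obtain ⟨F, hF⟩ : ∃ F : ℕ, F = ⌊1 / (8 * θ)⌋₊ := ⟨_, rfl⟩
    have h2θ : 2 ≤ 1 / (8 * θ) := by
      rw [le_div_iff₀ (by positivity)]
      linarith
    have hF1 : (F : ℝ) ≤ 1 / (8 * θ) := by rw [hF]; exact Nat.floor_le (by positivity)
    have hF2 : 1 / (8 * θ) < F + 1 := by rw [hF]; exact Nat.lt_floor_add_one _
    have hFθ : (F : ℝ) * θ ≤ 1 / 8 := by
      rw [le_div_iff₀ (by positivity)] at hF1
      linarith
    have hF3 : 1 ≤ F := by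
      have : (1 : ℝ) < F + 1 := by linarith
      have h : (0 : ℝ) < F := by linarith
      exact_mod_cast h
    have hF4 : 1 ≤ 16 * θ * F := by
      rw [div_lt_iff₀ (by positivity)] at hF2
      nlinarith
    have hF5 : (F : ℝ) ≤ M * K₁ ^ 2 := by
      have h1 : |(N 2 : ℝ)| ≤ 2 * (K₁ * H) ^ 2 := by
        have := cr_bound (B := (K₁ : ℤ) * H) hw hu 2
        exact_mod_cast this
      have h2 : 1 / (8 * θ) = M * |(N 2 : ℝ)| / (8 * D) := by
        rw [hθ]; field_simp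
      rw [h2] at hF1
      refine hF1.trans ?_
      rw [div_le_iff₀ (by positivity)]
      have h3 : (M : ℝ) * |(N 2 : ℝ)| ≤ M * (2 * (K₁ * H) ^ 2) := mul_le_mul_of_nonneg_left h1 hM0.le
      have h4 : (M : ℝ) * (2 * (K₁ * H) ^ 2) ≤ M * K₁ ^ 2 * (8 * D) := by
        have h5 := mul_le_mul_of_nonneg_left hD' (by positivity : (0 : ℝ) ≤ 2 * M * K₁ ^ 2)
        nlinarith
      linarith
    -- the projection is injective
    have hcard : S.card = (S.image (fun v => (t v 0, t v 1))).card := by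
      rw [card_image_of_injOn]
      intro v hv v' hv' h
      rw [mem_coe] at hv hv'
      rw [Prod.mk.injEq] at h
      refine hinj v hv v' hv' fun i => ?_
      fin_cases i
      · exact h.1
      · exact h.2
      · have h1 := hslab v hv
        have h2 := hslab v' hv'
        rw [h.1, h.2] at h1
        have h3 : |((t v 2 : ℤ) : ℝ) - ((t v' 2 : ℤ) : ℝ)| < 1 := by
          rw [abs_le] at h1 h2
          rw [abs_lt]
          constructor <;> linarith [h1.1, h1.2, h2.1, h2.2]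
        have h4 : |t v 2 - t v' 2| < 1 := by exact_mod_cast h3
        have h5 := Int.abs_lt_one_iff.1 h4
        show t v 2 = t v' 2
        omega
    rcases count2 α₀ α₁ β θ F hF3 hFθ (a 0) (a 1) n n (S.image (fun v => (t v 0, t v 1)))
      (by
        intro p hp
        obtain ⟨v, hv, rfl⟩ := mem_image.1 hp
        refine ⟨hIco v hv 0, hIco v hv 1, -(t v 2), ?_⟩
        have := hslab v hv
        push_cast
        rw [sub_neg_eq_add]
        exact this) with hcount | ⟨k, hk0, hkF, hr0, hr1⟩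
    · left
      rw [← hcard] at hcount
      have h8 : (n : ℝ) * n ≤ 25 * L ^ 2 := by
        have : (0 : ℝ) ≤ n := Nat.cast_nonneg n
        nlinarith
      have h9 : (S.card : ℝ) ≤ 1600 * (L ^ 2 * θ) := by
        have h0 : (0 : ℝ) ≤ S.card := Nat.cast_nonneg _
        have h1 : (S.card : ℝ) ≤ S.card * (16 * θ * F) := by nlinarith
        have h2 : (S.card : ℝ) * (16 * θ * F) = 16 * θ * (S.card * F) := by ring
        have h3 : 16 * θ * ((S.card : ℝ) * F) ≤ 16 * θ * (4 * (25 * L ^ 2)) := by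
          apply mul_le_mul_of_nonneg_left _ (by positivity)
          linarith
        calc (S.card : ℝ) ≤ 16 * θ * (4 * (25 * L ^ 2)) := by linarith
          _ = 1600 * (L ^ 2 * θ) := by ring
      refine h9.trans ?_
      calc 1600 * (L ^ 2 * θ) ≤ 1600 * ((K : ℝ) ^ 3 * D / ((x : ℝ) ^ 3 * (M : ℝ) ^ 3)) := by
            exact mul_le_mul_of_nonneg_left hLθ (by norm_num)
        _ = _ := by ring
    · right
      obtain ⟨r₀, hr₀⟩ : ∃ r : ℤ, r = round (k * α₀) := ⟨_, rfl⟩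
      obtain ⟨r₁, hr₁⟩ : ∃ r : ℤ, r = round (k * α₁) := ⟨_, rfl⟩
      rw [← hr₀] at hr0
      rw [← hr₁] at hr1
      have hkF' : |(k : ℝ)| ≤ F := by exact_mod_cast hkF
      have hkMK : |(k : ℝ)| ≤ M * K₁ ^ 2 := hkF'.trans hF5
      have hratio : ∀ i, |(N i : ℝ) / N 2| ≤ 2 * K₁ ^ 2 * K := by
        intro i
        rw [abs_div, div_le_iff₀ hNpos]
        have h1 : |(N i : ℝ)| ≤ 2 * (K₁ * H) ^ 2 := by
          have := cr_bound (B := (K₁ : ℤ) * H) hw hu i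
          exact_mod_cast this
        have h2 : (1 : ℝ) ≤ x := by exact_mod_cast hx
        have h3 : (H : ℝ) ^ 2 ≤ K * |(N 2 : ℝ)| := by
          refine le_trans ?_ hN'
          nlinarith [sq_nonneg (H : ℝ)]
        have h4 := mul_le_mul_of_nonneg_left h3 (by positivity : (0 : ℝ) ≤ 2 * K₁ ^ 2)
        nlinarith
      have hrb : ∀ (α : ℝ) (r : ℤ), r = round (k * α) → |α| ≤ 2 * K₁ ^ 2 * K →
          |(r : ℝ)| ≤ M * K₁ ^ 2 * (2 * K₁ ^ 2 * K) + 1 := by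
        intro α r hr hα
        have h1 : |k * α - r| ≤ 1 / 2 := by rw [hr]; exact abs_sub_round _
        have h2 : |(r : ℝ)| ≤ |k * α| + |k * α - r| := by
          have := abs_sub (k * α) (k * α - r)
          rw [sub_sub_cancel] at this
          exact this
        have h3 : |k * α| ≤ M * K₁ ^ 2 * (2 * K₁ ^ 2 * K) := by
          rw [abs_mul]
          exact mul_le_mul hkMK hα (abs_nonneg _) (by positivity)
        linarith
      have hb0 := hrb α₀ r₀ hr₀ (by rw [hα₀]; exact hratio 0)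
      have hb1 := hrb α₁ r₁ hr₁ (by rw [hα₁]; exact hratio 1)
      have hn0 : (0 : ℝ) < n := by linarith
      -- orthogonality
      have hort : ∀ z : Fin 3 → ℤ, dt z N = 0 → (∀ i, |z i| ≤ K₁ * H) →
          |((z 0 * r₀ + z 1 * r₁ + z 2 * k : ℤ) : ℝ)| ≤ K₁ * (M * K₁ ^ 2) * x * M := by
        intro z hz hzb
        have h1 : (z 0 : ℝ) * N 0 + z 1 * N 1 + z 2 * N 2 = 0 := by
          have : dt z N = z 0 * N 0 + z 1 * N 1 + z 2 * N 2 := rfl
          rw [this] at hz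
          exact_mod_cast hz
        have h2 : (z 2 : ℝ) = -(z 0 * α₀ + z 1 * α₁) := by
          rw [hα₀, hα₁]
          field_simp
          linarith
        have h3 : ((z 0 * r₀ + z 1 * r₁ + z 2 * k : ℤ) : ℝ) =
            -(z 0 * (k * α₀ - r₀) + z 1 * (k * α₁ - r₁)) := by
          push_cast
          rw [h2]
          ring
        rw [h3, abs_neg]
        have hz0 : |(z 0 : ℝ)| ≤ K₁ * H := by exact_mod_cast hzb 0
        have hz1 : |(z 1 : ℝ)| ≤ K₁ * H := by exact_mod_cast hzb 1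
        have h4 : |(z 0 : ℝ) * (k * α₀ - r₀) + z 1 * (k * α₁ - r₁)| ≤
            K₁ * H * |k * α₀ - r₀| + K₁ * H * |k * α₁ - r₁| := by
          refine (abs_add_le _ _).trans ?_
          rw [abs_mul, abs_mul]
          exact add_le_add (mul_le_mul_of_nonneg_right hz0 (abs_nonneg _))
            (mul_le_mul_of_nonneg_right hz1 (abs_nonneg _))
        refine h4.trans ?_
        -- `n ≥ 2 L ≥ 2 H / (x M)`
        have h5 : (H : ℝ) ≤ n * (x * M) := by
          have h6 : (H : ℝ) ≤ L * (x * M) := by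
            rw [hL, div_mul_cancel₀ _ (by positivity)]
            have : (1 : ℝ) ≤ K := by exact_mod_cast hK
            nlinarith
          have h7 : L * (x * M) ≤ n * (x * M) :=
            mul_le_mul_of_nonneg_right (by linarith) (by positivity)
          linarith
        have h6 : K₁ * H * |k * α₀ - r₀| + K₁ * H * |k * α₁ - r₁| ≤
            K₁ * (n * (x * M)) * |k * α₀ - r₀| + K₁ * (n * (x * M)) * |k * α₁ - r₁| := by
          gcongr
        refine h6.trans ?_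
        have h7 : K₁ * (n * (x * M)) * |k * α₀ - r₀| + K₁ * (n * (x * M)) * |k * α₁ - r₁| =
            (K₁ * x * M) * ((2 * n * |k * α₀ - r₀| + 2 * n * |k * α₁ - r₁|) / 2) := by ring
        rw [h7]
        have h8 : (2 * n * |k * α₀ - r₀| + 2 * n * |k * α₁ - r₁|) / 2 ≤ M * K₁ ^ 2 := by
          linarith
        calc (K₁ * x * M) * ((2 * n * |k * α₀ - r₀| + 2 * n * |k * α₁ - r₁|) / 2) ≤
            (K₁ * x * M) * (M * K₁ ^ 2) := mul_le_mul_of_nonneg_left h8 (by positivity)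
          _ = _ := by ring
      refine ⟨![r₀, r₁, k], ?_, ?_, ?_, ?_⟩
      · intro h
        exact hk0 (congrFun h 2)
      · have p1 : (0 : ℝ) ≤ K₁ * (M * K₁ ^ 2) * x * M := by positivity
        have p2 : (0 : ℝ) ≤ (M : ℝ) * K₁ ^ 2 := by positivity
        have p3 : (0 : ℝ) ≤ (M : ℝ) * K₁ ^ 2 * (2 * K₁ ^ 2 * K) := by positivity
        intro i
        have hg : |((![r₀, r₁, k] i : ℤ) : ℝ)| ≤ M * K₁ ^ 2 * (2 * K₁ ^ 2 * K) + 1 +
            K₁ * (M * K₁ ^ 2) * x * M + M * K₁ ^ 2 := by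
          fin_cases i
          · show |(r₀ : ℝ)| ≤ _
            linarith
          · show |(r₁ : ℝ)| ≤ _
            linarith
          · show |(k : ℝ)| ≤ _
            linarith
        exact_mod_cast hg
      · have h1 := hort w (by rw [hNdef]; exact dt_cr_left w u) hw
        have h2 : dt w ![r₀, r₁, k] = w 0 * r₀ + w 1 * r₁ + w 2 * k := rfl
        rw [h2]
        have p2 : (0 : ℝ) ≤ (M : ℝ) * K₁ ^ 2 := by positivity
        have p3 : (0 : ℝ) ≤ (M : ℝ) * K₁ ^ 2 * (2 * K₁ ^ 2 * K) := by positivity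
        have h3 : |((w 0 * r₀ + w 1 * r₁ + w 2 * k : ℤ) : ℝ)| ≤ M * K₁ ^ 2 * (2 * K₁ ^ 2 * K) + 1 +
            K₁ * (M * K₁ ^ 2) * x * M + M * K₁ ^ 2 := by linarith
        exact_mod_cast h3
      · have h1 := hort u (by rw [hNdef]; exact dt_cr_right w u) hu
        have h2 : dt u ![r₀, r₁, k] = u 0 * r₀ + u 1 * r₁ + u 2 * k := rfl
        rw [h2]
        have p2 : (0 : ℝ) ≤ (M : ℝ) * K₁ ^ 2 := by positivity
        have p3 : (0 : ℝ) ≤ (M : ℝ) * K₁ ^ 2 * (2 * K₁ ^ 2 * K) := by positivity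
        have h3 : |((u 0 * r₀ + u 1 * r₁ + u 2 * k : ℤ) : ℝ)| ≤ M * K₁ ^ 2 * (2 * K₁ ^ 2 * K) + 1 +
            K₁ * (M * K₁ ^ 2) * x * M + M * K₁ ^ 2 := by linarith
        exact_mod_cast h3

theorem slab : S_SLAB := by
  classical
  refine ⟨1600, by norm_num, ?_⟩
  intro K M x K₁ hK hM hx
  refine ⟨M * K₁ ^ 2 * (2 * K₁ ^ 2 * K) + 1 + K₁ * (M * K₁ ^ 2) * x * M + M * K₁ ^ 2,
    x * M + 1, ?_⟩
  intro H hH D hD u w hu hw hN γ
  refine slab_core K M x K₁ hK hM hx (by omega) (by omega) hD hu hw hN γ _ ?_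
  intro v hv
  exact (mem_filter.1 hv).2

end Pool.Agent.L7h8.BE
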